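import Pool.Agent.H96.KMF.K2.Lower2
import Pool.Agent.H96.KMF.Main1

/-!
# The case `k = 2`: asymptotics with error `O(log n)`
-/

set_option autoImplicit false

namespace Pool.Agent.H96.KMF

open Finset Filter Topology

/-- indicator of the exceptional numbers -/
def ee (x : ℕ) : ℕ := if Exc x then 1 else 0

lemma hh_add (x : ℕ) : hh x + ee x = oo x := by
  rw [hh_eq]; unfold ee
  have := oo_pos x
  split_ifs <;> omega

lemma ee_le (x : ℕ) : ee x ≤ 1 := by unfold ee; split_ifs <;> omega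

lemma not_exc_zero : ¬ Exc 0 := by
  rintro ⟨h, _⟩
  simp at h

/-- `(3/2)(1 - 3^{-(⌊log₃ N⌋+1)})` -/
noncomputable def aa (N : ℕ) : ℝ := 3 / 2 * (1 - 1 / 3 ^ (Nat.log 3 N + 1))

/-- `(2/3)(1 - 4^{-⌊(⌊log₂ N⌋+1)/2⌋})` -/
noncomputable def ab (N : ℕ) : ℝ := 2 / 3 * (1 - 1 / 4 ^ ((Nat.log 2 N + 1) / 2))

lemma log_step (b : ℕ) (hb : 1 < b) (N : ℕ) (hN : 1 ≤ N) :
    Nat.log b (N + 1) = Nat.log b N ∨
      (Nat.log b (N + 1) = Nat.log b N + 1 ∧ N + 1 = b ^ (Nat.log b N + 1)) := by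
  have h1 := Nat.lt_pow_succ_log_self hb N
  have h2 := Nat.pow_log_le_self b (by omega : N ≠ 0)
  rcases Nat.lt_or_ge (N + 1) (b ^ (Nat.log b N + 1)) with h | h
  · left
    exact Nat.log_eq_of_pow_le_of_lt_pow (by omega) h
  · right
    have h3 : N + 1 = b ^ (Nat.log b N + 1) := le_antisymm h1 h
    refine ⟨?_, h3⟩
    rw [h3, Nat.log_pow hb]

lemma aa_step (N : ℕ) (hN : 1 ≤ N) :
    aa (N + 1) - aa N = ((Nat.log 3 (N + 1) : ℝ) - Nat.log 3 N) / (N + 1) := by
  unfold aa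
  rcases log_step 3 (by norm_num) N hN with h | ⟨h, h'⟩
  · rw [h]; simp
  · rw [h]
    have e : ((N : ℝ) + 1) = 3 ^ (Nat.log 3 N + 1) := by exact_mod_cast h'
    rw [e]
    push_cast
    rw [pow_succ (3 : ℝ) (Nat.log 3 N + 1)]
    field_simp
    ring

lemma ab_step (N : ℕ) (hN : 1 ≤ N) :
    ab (N + 1) - ab N = ((((Nat.log 2 (N + 1) + 1) / 2 : ℕ) : ℝ) -
      (((Nat.log 2 N + 1) / 2 : ℕ) : ℝ)) / (N + 1) := by
  unfold ab
  rcases log_step 2 (by norm_num) N hN with h | ⟨h, h'⟩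
  · rw [h]; simp
  · rw [h]
    have e : ((N : ℝ) + 1) = 2 ^ (Nat.log 2 N + 1) := by exact_mod_cast h'
    rw [e]
    rcases Nat.even_or_odd' (Nat.log 2 N) with ⟨c, hc | hc⟩
    · rw [hc]
      have e1 : (2 * c + 1 + 1) / 2 = c + 1 := by omega
      have e2 : (2 * c + 1) / 2 = c := by omega
      rw [e1, e2]
      have e3 : (2 : ℝ) ^ (2 * c + 1) = 2 * 4 ^ c := by
        rw [pow_succ, pow_mul]; norm_num; ring
      rw [e3, pow_succ (4 : ℝ) c]
      push_cast
      field_simp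
      ring
    · rw [hc]
      have e1 : (2 * c + 1 + 1 + 1) / 2 = c + 1 := by omega
      have e2 : (2 * c + 1 + 1) / 2 = c + 1 := by omega
      rw [e1, e2]
      simp

lemma oo_cast (N : ℕ) : (oo N : ℝ) = Nat.log 3 N + 1 + (((Nat.log 2 N + 1) / 2 : ℕ) : ℝ) := by
  unfold oo; push_cast; ring

/-- partial sums of the main series -/
lemma oo_partial (N : ℕ) (hN : 1 ≤ N) :
    ∑ j ∈ Finset.Icc 1 N, (oo j : ℝ) / (j * (j + 1)) = aa N + ab N - oo N / (N + 1) := by
  induction N, hN using Nat.le_induction with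
  | base =>
    simp [aa, ab, oo]
    norm_num
  | succ N hN ih =>
    rw [Finset.sum_Icc_succ_top (by omega), ih]
    have h1 := aa_step N hN
    have h2 := ab_step N hN
    have h3 := oo_cast N
    have h4 := oo_cast (N + 1)
    have hN0 : (0 : ℝ) < N + 1 := by positivity
    have hN1 : (0 : ℝ) < (N : ℝ) + 1 + 1 := by positivity
    have e1 : aa (N + 1) + ab (N + 1) = aa N + ab N + ((oo (N + 1) : ℝ) - oo N) / (N + 1) := by
      rw [h3, h4]
      have : ((Nat.log 3 (N + 1) : ℝ) + 1 + (((Nat.log 2 (N + 1) + 1) / 2 : ℕ) : ℝ) -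
        (Nat.log 3 N + 1 + (((Nat.log 2 N + 1) / 2 : ℕ) : ℝ))) / ((N : ℝ) + 1) =
        ((Nat.log 3 (N + 1) : ℝ) - Nat.log 3 N) / (N + 1) +
        ((((Nat.log 2 (N + 1) + 1) / 2 : ℕ) : ℝ) - (((Nat.log 2 N + 1) / 2 : ℕ) : ℝ)) / (N + 1) := by
        ring
      rw [this, ← h1, ← h2]
      ring
    rw [e1]
    push_cast
    field_simp
    ring

lemma aa_bound (N : ℕ) : 3 / 2 - aa N ≤ 3 / 2 / (N + 1) ∧ aa N ≤ 3 / 2 := by
  unfold aa
  have h1 := Nat.lt_pow_succ_log_self (b := 3) (by norm_num) N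
  have h2 : ((N : ℝ) + 1) ≤ 3 ^ (Nat.log 3 N + 1) := by exact_mod_cast h1
  have h3 : 1 / (3 : ℝ) ^ (Nat.log 3 N + 1) ≤ 1 / (N + 1) :=
    one_div_le_one_div_of_le (by positivity) h2
  have h4 : 0 ≤ 1 / (3 : ℝ) ^ (Nat.log 3 N + 1) := by positivity
  have h5 : 3 / 2 / ((N : ℝ) + 1) = 3 / 2 * (1 / (N + 1)) := by ring
  constructor
  · rw [h5]; linarith
  · linarith

lemma ab_bound (N : ℕ) : 2 / 3 - ab N ≤ 4 / 3 / (N + 1) ∧ ab N ≤ 2 / 3 := by
  unfold ab
  have h1 := Nat.lt_pow_succ_log_self (b := 2) (by norm_num) N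
  have h2 : N + 1 ≤ 2 * 4 ^ ((Nat.log 2 N + 1) / 2) := by
    have e : 2 ^ (Nat.log 2 N + 1) ≤ 2 * 4 ^ ((Nat.log 2 N + 1) / 2) := by
      rw [show (4 : ℕ) = 2 ^ 2 by norm_num, ← pow_mul, ← pow_succ']
      exact Nat.pow_le_pow_right (by norm_num) (by omega)
    exact h1.trans_le e
  have h2' : ((N : ℝ) + 1) ≤ 2 * 4 ^ ((Nat.log 2 N + 1) / 2) := by exact_mod_cast h2
  have h3 : 1 / (4 : ℝ) ^ ((Nat.log 2 N + 1) / 2) ≤ 2 / (N + 1) := by
    rw [div_le_div_iff₀ (by positivity) (by positivity)]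
    linarith
  have h4 : 0 ≤ 1 / (4 : ℝ) ^ ((Nat.log 2 N + 1) / 2) := by positivity
  have h5 : 4 / 3 / ((N : ℝ) + 1) = 2 / 3 * (2 / (N + 1)) := by ring
  constructor
  · rw [h5]; linarith
  · linarith

lemma oo_le_log (N : ℕ) (hN : 1 ≤ N) : (oo N : ℝ) ≤ 2 + 2 * Real.log N := by
  have hNr : (1 : ℝ) ≤ N := by exact_mod_cast hN
  have hlog : 0 ≤ Real.log N := Real.log_nonneg hNr
  have h2 := Real.log_two_gt_d9
  have h3 : 1 < Real.log 3 := by
    rw [Real.lt_log_iff_exp_lt (by norm_num)]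
    have := Real.exp_one_lt_d9
    linarith
  have e3 : (Nat.log 3 N : ℝ) ≤ Real.log N := by
    have a1 := Nat.pow_log_le_self 3 (by omega : N ≠ 0)
    have a2 : ((3 : ℝ) ^ Nat.log 3 N) ≤ N := by exact_mod_cast a1
    have a3 := Real.log_le_log (by positivity) a2
    rw [Real.log_pow] at a3
    have a4 : (0 : ℝ) ≤ Nat.log 3 N := by positivity
    nlinarith
  have e2 : (Nat.log 2 N : ℝ) * 0.69 ≤ Real.log N := by
    have a1 := Nat.pow_log_le_self 2 (by omega : N ≠ 0)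
    have a2 : ((2 : ℝ) ^ Nat.log 2 N) ≤ N := by exact_mod_cast a1
    have a3 := Real.log_le_log (by positivity) a2
    rw [Real.log_pow] at a3
    have a4 : (0 : ℝ) ≤ Nat.log 2 N := by positivity
    nlinarith
  have e4 : (((Nat.log 2 N + 1) / 2 : ℕ) : ℝ) ≤ ((Nat.log 2 N : ℝ) + 1) / 2 := by
    have := Nat.cast_div_le (α := ℝ) (m := Nat.log 2 N + 1) (n := 2)
    push_cast at this
    exact this
  rw [oo_cast]
  nlinarith

lemma summable_oo : Summable (fun j : ℕ => (oo j : ℝ) / (j * (j + 1))) := by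
  apply summable_of_sum_range_le (c := 13 / 6)
  · intro j; positivity
  · intro n
    have h1 : ∑ j ∈ Finset.range n, (oo j : ℝ) / (j * (j + 1)) ≤
        ∑ j ∈ Finset.Icc 1 (n + 1), (oo j : ℝ) / (j * (j + 1)) := by
      have : ∑ j ∈ Finset.range n, (oo j : ℝ) / (j * (j + 1)) =
          ∑ j ∈ (Finset.range n).erase 0, (oo j : ℝ) / (j * (j + 1)) := by
        by_cases h0 : 0 ∈ Finset.range n
        · rw [← Finset.sum_erase_add _ _ h0]; simp
        · rw [Finset.erase_eq_of_notMem h0]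
      rw [this]
      apply Finset.sum_le_sum_of_subset_of_nonneg
      · intro j hj
        rw [Finset.mem_erase, Finset.mem_range] at hj
        rw [Finset.mem_Icc]
        omega
      · intro j _ _; positivity
    rw [oo_partial (n + 1) (by omega)] at h1
    have h2 := (aa_bound (n + 1)).2
    have h3 := (ab_bound (n + 1)).2
    have h4 : 0 ≤ (oo (n + 1) : ℝ) / (((n + 1 : ℕ) : ℝ) + 1) := by positivity
    linarith

lemma tsum_split (f : ℕ → ℝ) (hf : Summable f) (h0 : f 0 = 0) (N : ℕ) :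
    ∑' j, f j = ∑ j ∈ Finset.Icc 1 N, f j + ∑' j, f (j + (N + 1)) := by
  rw [← hf.sum_add_tsum_nat_add (N + 1)]
  congr 1
  rw [Finset.range_eq_Ico, Finset.sum_eq_sum_Ico_succ_bot (by omega), h0, zero_add]
  apply Finset.sum_congr _ (fun _ _ => rfl)
  ext x; simp only [Finset.mem_Ico, Finset.mem_Icc]; omega

lemma tsum_oo : ∑' j : ℕ, (oo j : ℝ) / (j * (j + 1)) = 13 / 6 := by
  have h := summable_oo
  have h1 : Tendsto (fun N : ℕ => ∑ j ∈ Finset.Icc 1 N, (oo j : ℝ) / (j * (j + 1))) atTop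
      (𝓝 (∑' j : ℕ, (oo j : ℝ) / (j * (j + 1)))) := by
    have h2 := h.hasSum.tendsto_sum_nat.comp (tendsto_add_atTop_nat 1)
    refine h2.congr fun N => ?_
    simp only [Function.comp]
    rw [Finset.range_eq_Ico, Finset.sum_eq_sum_Ico_succ_bot (by omega)]
    simp only [CharP.cast_eq_zero, zero_mul, div_zero, zero_add]
    apply Finset.sum_congr _ (fun _ _ => rfl)
    ext x; simp only [Finset.mem_Ico, Finset.mem_Icc]; omega
  refine tendsto_nhds_unique h1 ?_
  have hlim0 : Tendsto (fun N : ℕ => (1 : ℝ) / ((N : ℝ) + 1)) atTop (𝓝 0) :=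
    tendsto_one_div_add_atTop_nhds_zero_nat
  have hlog0 : Tendsto (fun N : ℕ => (5 + 2 * Real.log N) / ((N : ℝ) + 1)) atTop (𝓝 0) := by
    have e1 : Tendsto (fun N : ℕ => Real.log N / N) atTop (𝓝 0) := by
      have := Real.isLittleO_log_id_atTop.tendsto_div_nhds_zero
      exact this.comp tendsto_natCast_atTop_atTop
    have e2 : Tendsto (fun N : ℕ => 5 * (1 / ((N : ℝ) + 1)) + 2 * (Real.log N / N)) atTop
        (𝓝 (5 * 0 + 2 * 0)) := (hlim0.const_mul 5).add (e1.const_mul 2)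
    rw [mul_zero, mul_zero, add_zero] at e2
    refine squeeze_zero' ?_ ?_ e2
    · filter_upwards [eventually_ge_atTop 1] with N hN
      have : 0 ≤ Real.log N := Real.log_nonneg (by exact_mod_cast hN)
      positivity
    · filter_upwards [eventually_ge_atTop 1] with N hN
      have hl : 0 ≤ Real.log N := Real.log_nonneg (by exact_mod_cast hN)
      have hN0 : (0 : ℝ) < N := by exact_mod_cast hN
      have : Real.log N / ((N : ℝ) + 1) ≤ Real.log N / N :=
        div_le_div_of_nonneg_left hl hN0 (by linarith)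
      have e3 : (5 + 2 * Real.log N) / ((N : ℝ) + 1) =
          5 * (1 / ((N : ℝ) + 1)) + 2 * (Real.log N / ((N : ℝ) + 1)) := by ring
      rw [e3]; linarith
  have hsq : Tendsto (fun N : ℕ => 13 / 6 - (5 + 2 * Real.log N) / ((N : ℝ) + 1)) atTop
      (𝓝 (13 / 6)) := by
    simpa using hlog0.const_sub (13 / 6)
  refine tendsto_of_tendsto_of_tendsto_of_le_of_le' hsq tendsto_const_nhds ?_ ?_
  · filter_upwards [eventually_ge_atTop 1] with N hN
    rw [oo_partial N hN]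
    have b1 := (aa_bound N).1
    have b2 := (ab_bound N).1
    have b3 := oo_le_log N hN
    have hN0 : (0 : ℝ) < (N : ℝ) + 1 := by positivity
    have b4 : (oo N : ℝ) / (N + 1) ≤ (2 + 2 * Real.log N) / (N + 1) :=
      div_le_div_of_nonneg_right b3 hN0.le
    have b5 : (5 + 2 * Real.log N) / ((N : ℝ) + 1) = 3 / 2 / (N + 1) + 4 / 3 / (N + 1) +
        (2 + 2 * Real.log N) / (N + 1) + 1 / 6 / (N + 1) := by
      field_simp; ring
    have b6 : 0 ≤ 1 / 6 / ((N : ℝ) + 1) := by positivity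
    rw [b5]; linarith
  · filter_upwards [eventually_ge_atTop 1] with N hN
    rw [oo_partial N hN]
    have b1 := (aa_bound N).2
    have b2 := (ab_bound N).2
    have b3 : 0 ≤ (oo N : ℝ) / (N + 1) := by positivity
    linarith

end Pool.Agent.H96.KMF
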