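import Pool.Agent.H96.KMF.K2.Asym

/-!
# The case `k = 2`: asymptotics with error `O(log n)`, second part
-/

set_option autoImplicit false

namespace Pool.Agent.H96.KMF

open Finset Filter Topology

/-- A monotone function controlling the variation of `hh`. -/
def TT (x : ℕ) : ℕ :=
  oo x + Nat.log 2 x + Nat.log 2 (4 * x / 5) + Nat.log 3 x + Nat.log 3 (3 * x / 5) +
    Nat.log 3 (x / 2)

lemma exc_iff (x : ℕ) : Exc x ↔ Odd (Nat.log 2 x) ∧ Nat.log 2 x ≤ Nat.log 2 (4 * x / 5) ∧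
    Nat.log 3 x ≤ Nat.log 3 (3 * x / 5) ∧ Nat.log 3 (x / 2) < Nat.log 3 x := by
  unfold Exc
  rcases Nat.lt_or_ge x 2 with hx | hx
  · have : Nat.log 2 x = 0 := Nat.log_of_lt hx
    rw [this]
    simp
  · have h1 : 4 * x / 5 ≠ 0 := by omega
    have h2 : 3 * x / 5 ≠ 0 := by omega
    have h3 : x / 2 ≠ 0 := by omega
    rw [Nat.le_log_iff_pow_le (by norm_num) h1, Nat.le_log_iff_pow_le (by norm_num) h2,
      Nat.log_lt_iff_lt_pow (by norm_num) h3, Nat.le_div_iff_mul_le (by norm_num),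
      Nat.le_div_iff_mul_le (by norm_num), Nat.div_lt_iff_lt_mul (by norm_num),
      mul_comm 5, mul_comm 5, mul_comm 2 (3 ^ _)]

lemma hh_step (j : ℕ) : |(hh (j + 1) : ℝ) - hh j| ≤ (TT (j + 1) : ℝ) - TT j := by
  have e0 := hh_add j
  have e1 := hh_add (j + 1)
  have m1 : Nat.log 2 j ≤ Nat.log 2 (j + 1) := Nat.log_mono_right (by omega)
  have m2 : Nat.log 2 (4 * j / 5) ≤ Nat.log 2 (4 * (j + 1) / 5) := Nat.log_mono_right (by omega)
  have m3 : Nat.log 3 j ≤ Nat.log 3 (j + 1) := Nat.log_mono_right (by omega)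
  have m4 : Nat.log 3 (3 * j / 5) ≤ Nat.log 3 (3 * (j + 1) / 5) := Nat.log_mono_right (by omega)
  have m5 : Nat.log 3 (j / 2) ≤ Nat.log 3 ((j + 1) / 2) := Nat.log_mono_right (by omega)
  have mo : oo j ≤ oo (j + 1) := by unfold oo; omega
  have l0 := ee_le j
  have l1 := ee_le (j + 1)
  have key : |(hh (j + 1) : ℤ) - hh j| ≤ (TT (j + 1) : ℤ) - TT j := by
    by_cases hall : Nat.log 2 j = Nat.log 2 (j + 1) ∧
        Nat.log 2 (4 * j / 5) = Nat.log 2 (4 * (j + 1) / 5) ∧ Nat.log 3 j = Nat.log 3 (j + 1) ∧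
        Nat.log 3 (3 * j / 5) = Nat.log 3 (3 * (j + 1) / 5) ∧
        Nat.log 3 (j / 2) = Nat.log 3 ((j + 1) / 2)
    · have hee : ee (j + 1) = ee j := by
        have : Exc (j + 1) ↔ Exc j := by
          rw [exc_iff, exc_iff, hall.1, hall.2.1, hall.2.2.1, hall.2.2.2.1, hall.2.2.2.2]
        unfold ee
        simp only [this]
      rw [abs_le]
      unfold TT
      constructor <;> push_cast <;> omega
    · have hlt : Nat.log 2 j + Nat.log 2 (4 * j / 5) + Nat.log 3 j + Nat.log 3 (3 * j / 5) +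
          Nat.log 3 (j / 2) + 1 ≤ Nat.log 2 (j + 1) + Nat.log 2 (4 * (j + 1) / 5) +
          Nat.log 3 (j + 1) + Nat.log 3 (3 * (j + 1) / 5) + Nat.log 3 ((j + 1) / 2) := by
        by_contra hc
        apply hall
        refine ⟨?_, ?_, ?_, ?_, ?_⟩ <;> omega
      rw [abs_le]
      unfold TT
      constructor <;> push_cast <;> omega
  exact_mod_cast key

lemma cnt6 (y : ℕ) : 3 * cnt 6 y ≤ y + 2 ∧ y ≤ 3 * cnt 6 y + 1 := by
  have h1 : cnt 6 y = cnt 6 (y % 6) + (y / 6) * Nat.totient 6 := by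
    have hy : y = y % 6 + (y / 6) * 6 := by omega
    conv_lhs => rw [hy]
    exact cnt_mul_period 6 _ _
  have ht : Nat.totient 6 = 2 := by decide
  rw [h1, ht]
  have hr : y % 6 < 6 := Nat.mod_lt _ (by norm_num)
  have key : ∀ r < 6, 3 * cnt 6 r ≤ r + 2 ∧ r ≤ 3 * cnt 6 r + 1 := by decide
  have := key _ hr
  omega

/-- discrepancy -/
noncomputable def dd (n j : ℕ) : ℝ := (cnt 6 (n / j) : ℝ) - n / (3 * j)

lemma dd_le (n j : ℕ) (hj : 1 ≤ j) : |dd n j| ≤ 2 / 3 := by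
  unfold dd
  obtain ⟨h1, h2⟩ := cnt6 (n / j)
  have hjr : (0 : ℝ) < j := by exact_mod_cast hj
  have h3 : ((n / j : ℕ) : ℝ) ≤ (n : ℝ) / j := Nat.cast_div_le
  have h4 : (n : ℝ) / j < ((n / j : ℕ) : ℝ) + 1 := by
    rw [div_lt_iff₀ hjr]
    have : n < (n / j + 1) * j := by
      rw [mul_comm]
      exact Nat.lt_mul_div_succ n hj
    exact_mod_cast this
  have h1' : 3 * (cnt 6 (n / j) : ℝ) ≤ ((n / j : ℕ) : ℝ) + 2 := by exact_mod_cast h1
  have h2' : ((n / j : ℕ) : ℝ) ≤ 3 * (cnt 6 (n / j) : ℝ) + 1 := by exact_mod_cast h2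
  have h5 : (n : ℝ) / (3 * j) = (n : ℝ) / j / 3 := by field_simp
  rw [h5, abs_le]
  constructor <;> linarith

lemma abel (h d : ℕ → ℝ) (J : ℕ) :
    ∑ j ∈ Finset.range J, h (j + 1) * (d (j + 1) - d (j + 2)) =
      h 1 * d 1 - h (J + 1) * d (J + 1) +
        ∑ j ∈ Finset.range J, (h (j + 2) - h (j + 1)) * d (j + 2) := by
  induction J with
  | zero => simp
  | succ J ih =>
    rw [Finset.sum_range_succ, ih, Finset.sum_range_succ]
    ring

lemma abel_bound (h d : ℕ → ℝ) (T : ℕ → ℝ) (D : ℝ) (hD : ∀ j, 1 ≤ j → |d j| ≤ D)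
    (hh0 : ∀ j, 0 ≤ h j) (hT : ∀ j, |h (j + 1) - h j| ≤ T (j + 1) - T j) (J : ℕ) :
    |∑ j ∈ Finset.range J, h (j + 1) * (d (j + 1) - d (j + 2))| ≤
      D * (h 1 + h (J + 1) + (T (J + 1) - T 1)) := by
  rw [abel]
  have hD0 : 0 ≤ D := (abs_nonneg _).trans (hD 1 le_rfl)
  have h1 : |h 1 * d 1| ≤ D * h 1 := by
    rw [abs_mul, abs_of_nonneg (hh0 1), mul_comm]
    exact mul_le_mul_of_nonneg_right (hD 1 le_rfl) (hh0 1)
  have h2 : |h (J + 1) * d (J + 1)| ≤ D * h (J + 1) := by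
    rw [abs_mul, abs_of_nonneg (hh0 _), mul_comm]
    exact mul_le_mul_of_nonneg_right (hD _ (by omega)) (hh0 _)
  have h3 : |∑ j ∈ Finset.range J, (h (j + 2) - h (j + 1)) * d (j + 2)| ≤
      D * (T (J + 1) - T 1) := by
    have e1 : |∑ j ∈ Finset.range J, (h (j + 2) - h (j + 1)) * d (j + 2)| ≤
        ∑ j ∈ Finset.range J, D * (T (j + 2) - T (j + 1)) := by
      refine (Finset.abs_sum_le_sum_abs _ _).trans (Finset.sum_le_sum fun j _ => ?_)
      rw [abs_mul, mul_comm]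
      exact mul_le_mul (hD _ (by omega)) (hT (j + 1)) (abs_nonneg _) hD0
    have e2 : ∑ j ∈ Finset.range J, D * (T (j + 2) - T (j + 1)) = D * (T (J + 1) - T 1) := by
      rw [← Finset.mul_sum]
      congr 1
      exact Finset.sum_range_sub (fun j => T (j + 1)) J
    rw [← e2]; exact e1
  calc |h 1 * d 1 - h (J + 1) * d (J + 1) +
        ∑ j ∈ Finset.range J, (h (j + 2) - h (j + 1)) * d (j + 2)|
      ≤ |h 1 * d 1 - h (J + 1) * d (J + 1)| +
        |∑ j ∈ Finset.range J, (h (j + 2) - h (j + 1)) * d (j + 2)| := abs_add_le _ _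
    _ ≤ (|h 1 * d 1| + |h (J + 1) * d (J + 1)|) +
        |∑ j ∈ Finset.range J, (h (j + 2) - h (j + 1)) * d (j + 2)| := by
        gcongr; exact abs_sub _ _
    _ ≤ _ := by rw [mul_add, mul_add]; linarith

lemma TT_le (x : ℕ) (hx : 1 ≤ x) : (TT x : ℝ) ≤ 2 + 8 * Real.log x := by
  have hNr : (1 : ℝ) ≤ x := by exact_mod_cast hx
  have hlog : 0 ≤ Real.log x := Real.log_nonneg hNr
  have h0 := oo_le_log x hx
  have h2 := Real.log_two_gt_d9
  have h3 : 1 < Real.log 3 := by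
    rw [Real.lt_log_iff_exp_lt (by norm_num)]
    have := Real.exp_one_lt_d9
    linarith
  have e3 : (Nat.log 3 x : ℝ) ≤ Real.log x := by
    have a1 := Nat.pow_log_le_self 3 (by omega : x ≠ 0)
    have a2 : ((3 : ℝ) ^ Nat.log 3 x) ≤ x := by exact_mod_cast a1
    have a3 := Real.log_le_log (by positivity) a2
    rw [Real.log_pow] at a3
    have a4 : (0 : ℝ) ≤ Nat.log 3 x := by positivity
    nlinarith
  have e2 : (Nat.log 2 x : ℝ) * 0.69 ≤ Real.log x := by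
    have a1 := Nat.pow_log_le_self 2 (by omega : x ≠ 0)
    have a2 : ((2 : ℝ) ^ Nat.log 2 x) ≤ x := by exact_mod_cast a1
    have a3 := Real.log_le_log (by positivity) a2
    rw [Real.log_pow] at a3
    have a4 : (0 : ℝ) ≤ Nat.log 2 x := by positivity
    nlinarith
  have m2 : Nat.log 2 (4 * x / 5) ≤ Nat.log 2 x := Nat.log_mono_right (by omega)
  have m4 : Nat.log 3 (3 * x / 5) ≤ Nat.log 3 x := Nat.log_mono_right (by omega)
  have m5 : Nat.log 3 (x / 2) ≤ Nat.log 3 x := Nat.log_mono_right (by omega)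
  have m2' : (Nat.log 2 (4 * x / 5) : ℝ) ≤ Nat.log 2 x := by exact_mod_cast m2
  have m4' : (Nat.log 3 (3 * x / 5) : ℝ) ≤ Nat.log 3 x := by exact_mod_cast m4
  have m5' : (Nat.log 3 (x / 2) : ℝ) ≤ Nat.log 3 x := by exact_mod_cast m5
  unfold TT
  push_cast
  linarith

/-- The density constant for `k = 2`. -/
noncomputable def c2 : ℝ := 13 / 18 - 1 / 3 * ∑' j : ℕ, (ee j : ℝ) / (j * (j + 1))

lemma summable_ee : Summable (fun j : ℕ => (ee j : ℝ) / (j * (j + 1))) := by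
  refine Summable.of_nonneg_of_le (fun j => by positivity) (fun j => ?_) summable_oo
  apply div_le_div_of_nonneg_right _ (by positivity)
  have h1 := hh_add j
  have : ee j ≤ oo j := by omega
  exact_mod_cast this

lemma hh_div_eq (j : ℕ) : (hh j : ℝ) / (j * (j + 1)) =
    (oo j : ℝ) / (j * (j + 1)) - (ee j : ℝ) / (j * (j + 1)) := by
  rw [← sub_div]
  congr 1
  have := hh_add j
  rw [eq_sub_iff_add_eq]
  exact_mod_cast this

lemma summable_hh : Summable (fun j : ℕ => (hh j : ℝ) / (j * (j + 1))) := by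
  have := summable_oo.sub summable_ee
  refine this.congr fun j => ?_
  rw [hh_div_eq]

lemma c2_eq : c2 = 1 / 3 * ∑' j : ℕ, (hh j : ℝ) / (j * (j + 1)) := by
  have h : ∑' j : ℕ, (hh j : ℝ) / (j * (j + 1)) =
      13 / 6 - ∑' j : ℕ, (ee j : ℝ) / (j * (j + 1)) := by
    rw [← tsum_oo, ← summable_oo.tsum_sub summable_ee]
    exact tsum_congr hh_div_eq
  rw [h]; unfold c2; ring

lemma tail_cmp (f g : ℕ → ℝ) (hf : Summable f) (hg : Summable g) (f0 : ∀ j, 0 ≤ f j)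
    (hfg : ∀ j, f j ≤ g j) (hf0 : f 0 = 0) (hg0 : g 0 = 0) (n : ℕ) :
    0 ≤ (∑' j, f j) - ∑ j ∈ Finset.Icc 1 n, f j ∧
    (∑' j, f j) - ∑ j ∈ Finset.Icc 1 n, f j ≤ (∑' j, g j) - ∑ j ∈ Finset.Icc 1 n, g j := by
  rw [tsum_split f hf hf0 n, tsum_split g hg hg0 n]
  have s1 : Summable fun j : ℕ => f (j + (n + 1)) := (summable_nat_add_iff (n + 1)).mpr hf
  have s2 : Summable fun j : ℕ => g (j + (n + 1)) := (summable_nat_add_iff (n + 1)).mpr hg
  have h1 : 0 ≤ ∑' j : ℕ, f (j + (n + 1)) := tsum_nonneg fun j => f0 _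
  have h2 : ∑' j : ℕ, f (j + (n + 1)) ≤ ∑' j : ℕ, g (j + (n + 1)) :=
    s1.tsum_le_tsum (fun j => hfg _) s2
  constructor <;> linarith

lemma tail_hh (n : ℕ) (hn : 1 ≤ n) :
    0 ≤ (∑' j : ℕ, (hh j : ℝ) / (j * (j + 1))) - ∑ j ∈ Finset.Icc 1 n, (hh j : ℝ) / (j * (j + 1)) ∧
    (∑' j : ℕ, (hh j : ℝ) / (j * (j + 1))) - ∑ j ∈ Finset.Icc 1 n, (hh j : ℝ) / (j * (j + 1)) ≤
      (17 / 6 + oo n) / (n + 1) := by
  have hle : ∀ j : ℕ, (hh j : ℝ) / (j * (j + 1)) ≤ (oo j : ℝ) / (j * (j + 1)) := by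
    intro j
    apply div_le_div_of_nonneg_right _ (by positivity)
    have := hh_add j
    have h3 : hh j ≤ oo j := by omega
    exact_mod_cast h3
  have h := tail_cmp (fun j : ℕ => (hh j : ℝ) / (j * (j + 1)))
    (fun j : ℕ => (oo j : ℝ) / (j * (j + 1))) summable_hh summable_oo
    (fun j => by positivity) hle (by simp) (by simp) n
  refine ⟨h.1, h.2.trans ?_⟩
  rw [tsum_oo, oo_partial n hn]
  have b1 := (aa_bound n).1
  have b2 := (ab_bound n).1
  have e3 : (17 / 6 + (oo n : ℝ)) / (n + 1) = 3 / 2 / ((n : ℝ) + 1) + 4 / 3 / (n + 1) +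
      oo n / (n + 1) := by
    field_simp; ring
  rw [e3]; linarith

theorem gk2_asym (n : ℕ) : |(gk 2 n : ℝ) - c2 * n| ≤ 5 + 8 * Real.log (n + 1) := by
  rcases Nat.eq_zero_or_pos n with rfl | hn
  · have : gk 2 0 = 0 := by
      rw [gk2_eq]; unfold rgh; simp
    rw [this]; simp
  have hL : (0 : ℝ) ≤ Real.log (n + 1) := Real.log_nonneg (by
    have : (0 : ℝ) ≤ n := by positivity
    linarith)
  -- exact decomposition
  have h1 : (gk 2 n : ℝ) = RR (fun j => (hh j : ℝ)) 6 n 0 := by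
    rw [gk2_eq]; unfold RR; push_cast; simp
  have h2 := RR_zero (fun j => (hh j : ℝ)) 6 n n
  have h3 : RR (fun j => (hh j : ℝ)) 6 n n = 0 := by
    unfold RR rgh
    have : n / (n + 1) = 0 := Nat.div_eq_of_lt (by omega)
    rw [this]; simp
  rw [h3, zero_add] at h2
  have h4 : ∑ j ∈ Finset.range n,
      (hh (j + 1) : ℝ) * ((cnt 6 (n / (j + 1)) : ℝ) - cnt 6 (n / (j + 2))) =
      (n : ℝ) / 3 * ∑ j ∈ Finset.Icc 1 n, (hh j : ℝ) / (j * (j + 1)) +
      ∑ j ∈ Finset.range n, (hh (j + 1) : ℝ) * (dd n (j + 1) - dd n (j + 2)) := by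
    have e1 : ∑ j ∈ Finset.Icc 1 n, (hh j : ℝ) / (j * (j + 1)) =
        ∑ j ∈ Finset.range n, (hh (j + 1) : ℝ) / (((j + 1 : ℕ) : ℝ) * (((j + 1 : ℕ) : ℝ) + 1)) := by
      rw [Finset.range_eq_Ico, Finset.sum_Ico_add' (fun j => (hh j : ℝ) / (j * (j + 1))) 0 n 1]
      apply Finset.sum_congr _ (fun _ _ => rfl)
      ext x; simp only [Finset.mem_Ico, Finset.mem_Icc]; omega
    rw [e1, Finset.mul_sum, ← Finset.sum_add_distrib]
    apply Finset.sum_congr rfl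
    intro j _
    unfold dd
    push_cast
    have hj1 : (0 : ℝ) < (j : ℝ) + 1 := by positivity
    have hj2 : (0 : ℝ) < (j : ℝ) + 2 := by positivity
    have hj3 : (0 : ℝ) < (j : ℝ) + 1 + 1 := by positivity
    field_simp
    ring
  have h5 := abel_bound (fun j => (hh j : ℝ)) (dd n) (fun j => (TT j : ℝ)) (2 / 3)
    (dd_le n) (fun j => by positivity) hh_step n
  have h6 : hh 1 = 1 := by decide
  have h7 : TT 1 = 1 := by decide
  have h8 : (hh (n + 1) : ℝ) ≤ 2 + 2 * Real.log (n + 1) := by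
    have a1 := hh_add (n + 1)
    have a2 : hh (n + 1) ≤ oo (n + 1) := by omega
    have a3 : (hh (n + 1) : ℝ) ≤ oo (n + 1) := by exact_mod_cast a2
    have a4 := oo_le_log (n + 1) (by omega)
    push_cast at a4
    linarith
  have h9 : (TT (n + 1) : ℝ) ≤ 2 + 8 * Real.log (n + 1) := by
    have := TT_le (n + 1) (by omega)
    push_cast at this
    exact this
  rw [h6, h7] at h5
  obtain ⟨t1, t2⟩ := tail_hh n hn
  set Sh := ∑' j : ℕ, (hh j : ℝ) / (j * (j + 1)) with hSg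
  set Ph := ∑ j ∈ Finset.Icc 1 n, (hh j : ℝ) / (j * (j + 1)) with hP
  set E := ∑ j ∈ Finset.range n, (hh (j + 1) : ℝ) * (dd n (j + 1) - dd n (j + 2)) with hE
  have h10 : (gk 2 n : ℝ) - c2 * n = E - (n : ℝ) / 3 * (Sh - Ph) := by
    rw [h1, h2, h4, c2_eq]; ring
  have hn0 : (0 : ℝ) < n := by exact_mod_cast hn
  have h11 : (n : ℝ) / 3 * (Sh - Ph) ≤ 17 / 18 + oo n / 3 := by
    have a1 : (n : ℝ) / 3 * (Sh - Ph) ≤ (n : ℝ) / 3 * ((17 / 6 + oo n) / (n + 1)) := by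
      apply mul_le_mul_of_nonneg_left t2 (by positivity)
    have a2 : (n : ℝ) / 3 * ((17 / 6 + oo n) / (n + 1)) ≤ 1 / 3 * (17 / 6 + oo n) := by
      rw [show (n : ℝ) / 3 * ((17 / 6 + oo n) / (n + 1)) =
        (n / (n + 1)) * (1 / 3 * (17 / 6 + (oo n : ℝ))) by ring]
      have a3 : (n : ℝ) / (n + 1) ≤ 1 := by rw [div_le_one (by positivity)]; linarith
      have a4 : (0 : ℝ) ≤ 1 / 3 * (17 / 6 + (oo n : ℝ)) := by positivity
      nlinarith
    linarith
  have h12 : 0 ≤ (n : ℝ) / 3 * (Sh - Ph) := mul_nonneg (by positivity) t1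
  have h13 : (oo n : ℝ) ≤ 2 + 2 * Real.log (n + 1) := by
    have a1 := oo_le_log n hn
    have a2 : Real.log n ≤ Real.log (n + 1) := Real.log_le_log hn0 (by linarith)
    linarith
  rw [h10]
  rw [abs_le] at h5 ⊢
  push_cast at h5
  constructor
  · nlinarith [h5.1]
  · nlinarith [h5.2]

end Pool.Agent.H96.KMF
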