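import Pool.Agent.H96.KMF.K2.Defs

/-!
# The case `k = 2`: the upper bound
-/

set_option autoImplicit false

namespace Pool.Agent.H96.KMF

open Finset

/-- `P` is a set of exponent pairs in which no pair is above two others. -/
def Fr (P : Finset (ℕ × ℕ)) : Prop :=
  ∀ p ∈ P, ∀ q ∈ P, ∀ r ∈ P, q ≠ p → r ≠ p → q ≠ r →
    q.1 ≤ p.1 → q.2 ≤ p.2 → r.1 ≤ p.1 → r.2 ≤ p.2 → False

section

variable {x : ℕ} {P : Finset (ℕ × ℕ)}

lemma bounds_of {p : ℕ × ℕ} (h : 2 ^ p.1 * 3 ^ p.2 ≤ x) :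
    p.1 ≤ Nat.log 2 x ∧ p.2 ≤ Nat.log 3 x := by
  constructor
  · exact Nat.le_log_of_pow_le (by norm_num)
      (le_trans (Nat.le_mul_of_pos_right _ (by positivity)) h)
  · exact Nat.le_log_of_pow_le (by norm_num)
      (le_trans (Nat.le_mul_of_pos_left _ (by positivity)) h)

lemma row_le_two (hF : Fr P) (b : ℕ) : (P.filter (fun p => p.2 = b)).card ≤ 2 := by
  by_contra hcon
  push Not at hcon
  rw [Finset.two_lt_card_iff] at hcon
  obtain ⟨p, q, r, hp, hq, hr, hpq, hpr, hqr⟩ := hcon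
  rw [Finset.mem_filter] at hp hq hr
  obtain ⟨hp, hp2⟩ := hp
  obtain ⟨hq, hq2⟩ := hq
  obtain ⟨hr, hr2⟩ := hr
  have n1 : p.1 ≠ q.1 := fun h => hpq (Prod.ext h (hp2.trans hq2.symm))
  have n2 : p.1 ≠ r.1 := fun h => hpr (Prod.ext h (hp2.trans hr2.symm))
  have n3 : q.1 ≠ r.1 := fun h => hqr (Prod.ext h (hq2.trans hr2.symm))
  rcases lt_or_gt_of_ne n1 with h1 | h1
  · rcases lt_or_gt_of_ne n3 with h3 | h3
    · exact hF r hr p hp q hq (Ne.symm hpr.symm) hqr hpq (by omega) (by omega) (by omega) (by omega)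
    · exact hF q hq p hp r hr hpq (Ne.symm hqr) hpr (by omega) (by omega) (by omega) (by omega)
  · rcases lt_or_gt_of_ne n2 with h2 | h2
    · exact hF r hr p hp q hq hpr hqr hpq (by omega) (by omega) (by omega) (by omega)
    · exact hF p hp q hq r hr (Ne.symm hpq) (Ne.symm hpr) hqr (by omega) (by omega) (by omega)
        (by omega)

/-- rows with two elements -/
def dbl (P : Finset (ℕ × ℕ)) (B : ℕ) : Finset ℕ :=
  (Finset.range (B + 1)).filter (fun b => (P.filter (fun p => p.2 = b)).card = 2)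

lemma other_elt {b : ℕ} (hb : (P.filter (fun p => p.2 = b)).card = 2) {q : ℕ × ℕ}
    (hq2 : q.2 = b) : ∃ q' ∈ P, q'.2 = b ∧ q'.1 ≠ q.1 := by
  have h1 : 1 < (P.filter (fun p => p.2 = b)).card := by omega
  obtain ⟨q', hq', hne⟩ := Finset.exists_mem_ne h1 q
  rw [Finset.mem_filter] at hq'
  exact ⟨q', hq'.1, hq'.2, fun h => hne (Prod.ext h (hq'.2.trans hq2.symm))⟩

lemma col_inj (hF : Fr P) (B : ℕ) :
    Set.InjOn (fun p : ℕ × ℕ => p.1) (P.filter (fun p => p.2 ∈ dbl P B) : Set (ℕ × ℕ)) := by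
  -- two elements of the same column, the upper one in a double row
  have key : ∀ p ∈ P, ∀ q ∈ P, p.1 = q.1 → p.2 < q.2 → q.2 ∈ dbl P B → False := by
    intro p hp q hq h1 h2 hd
    unfold dbl at hd
    rw [Finset.mem_filter] at hd
    obtain ⟨q', hq', hq'2, hne⟩ := other_elt hd.2 rfl
    have npq : p ≠ q := fun h => by rw [h] at h2; omega
    have npq' : p ≠ q' := fun h => by rw [h] at h2; omega
    have nqq' : q ≠ q' := fun h => hne (by rw [h])
    rcases lt_or_gt_of_ne hne with h3 | h3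
    · exact hF q hq p hp q' hq' npq (Ne.symm nqq') npq' (by omega) (by omega) (by omega) (by omega)
    · exact hF q' hq' p hp q hq npq' nqq' npq (by omega) (by omega) (by omega) (by omega)
  intro p hp q hq h
  rw [Finset.mem_coe, Finset.mem_filter] at hp hq
  simp only at h
  by_contra hne
  have h2 : p.2 ≠ q.2 := fun h' => hne (Prod.ext h h')
  rcases lt_or_gt_of_ne h2 with h3 | h3
  · exact key p hp.1 q hq.1 h h3 hq.2
  · exact key q hq.1 p hp.1 h.symm h3 hp.2

lemma card_dblset (B : ℕ) :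
    (P.filter (fun p => p.2 ∈ dbl P B)).card = 2 * (dbl P B).card := by
  have h1 : ∀ p ∈ P.filter (fun p => p.2 ∈ dbl P B), p.2 ∈ dbl P B := fun p hp =>
    (Finset.mem_filter.mp hp).2
  rw [Finset.card_eq_sum_card_fiberwise h1]
  have h2 : ∀ b ∈ dbl P B, ((P.filter (fun p => p.2 ∈ dbl P B)).filter (fun p => p.2 = b)).card
      = 2 := by
    intro b hb
    have : (P.filter (fun p => p.2 ∈ dbl P B)).filter (fun p => p.2 = b) =
        P.filter (fun p => p.2 = b) := by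
      ext p
      simp only [Finset.mem_filter]
      constructor
      · rintro ⟨⟨a, _⟩, c⟩; exact ⟨a, c⟩
      · rintro ⟨a, c⟩; exact ⟨⟨a, by rw [c]; exact hb⟩, c⟩
    rw [this]
    unfold dbl at hb
    exact (Finset.mem_filter.mp hb).2
  rw [Finset.sum_congr rfl h2, Finset.sum_const, smul_eq_mul, mul_comm]

lemma two_dbl_le (hP : ∀ p ∈ P, 2 ^ p.1 * 3 ^ p.2 ≤ x) (hF : Fr P) (B : ℕ) :
    2 * (dbl P B).card ≤ Nat.log 2 x + 1 := by
  rw [← card_dblset, ← Finset.card_image_of_injOn (col_inj hF B)]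
  have : (P.filter (fun p => p.2 ∈ dbl P B)).image (fun p : ℕ × ℕ => p.1) ⊆
      Finset.range (Nat.log 2 x + 1) := by
    intro a ha
    rw [Finset.mem_image] at ha
    obtain ⟨p, hp, rfl⟩ := ha
    rw [Finset.mem_range]
    have := (bounds_of (hP p (Finset.mem_filter.mp hp).1)).1
    omega
  calc _ ≤ (Finset.range (Nat.log 2 x + 1)).card := Finset.card_le_card this
    _ = _ := Finset.card_range _

lemma card_eq_rows (hP : ∀ p ∈ P, 2 ^ p.1 * 3 ^ p.2 ≤ x) :
    P.card = ∑ b ∈ Finset.range (Nat.log 3 x + 1), (P.filter (fun p => p.2 = b)).card := by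
  apply Finset.card_eq_sum_card_fiberwise
  intro p hp
  have := (bounds_of (hP p hp)).2
  rw [Finset.mem_coe, Finset.mem_range]; omega

lemma row_bound (hF : Fr P) (B b : ℕ) (hb : b ∈ Finset.range (B + 1)) :
    (P.filter (fun p => p.2 = b)).card ≤ 1 + (if b ∈ dbl P B then 1 else 0) := by
  have h2 := row_le_two hF b
  split_ifs with h
  · exact h2
  · by_contra hcon
    push Not at hcon
    apply h
    unfold dbl
    rw [Finset.mem_filter]
    exact ⟨hb, by omega⟩

lemma sum_ind (P : Finset (ℕ × ℕ)) (B : ℕ) :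
    ∑ b ∈ Finset.range (B + 1), (1 + (if b ∈ dbl P B then 1 else 0)) =
      B + 1 + (dbl P B).card := by
  rw [Finset.sum_add_distrib, Finset.sum_const, Finset.card_range, smul_eq_mul, mul_one]
  congr 1
  rw [← Finset.sum_filter, Finset.sum_const, smul_eq_mul, mul_one]
  congr 1
  ext b
  rw [Finset.mem_filter]
  constructor
  · exact fun h => h.2
  · intro h
    refine ⟨?_, h⟩
    unfold dbl at h
    exact (Finset.mem_filter.mp h).1

/-- One class has at most `oo x` elements. -/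
lemma class_le (hP : ∀ p ∈ P, 2 ^ p.1 * 3 ^ p.2 ≤ x) (hF : Fr P) :
    P.card ≤ oo x := by
  rw [card_eq_rows hP]
  have h1 := Finset.sum_le_sum (fun b hb => row_bound hF (Nat.log 3 x) b hb)
  rw [sum_ind] at h1
  have h2 := two_dbl_le hP hF (Nat.log 3 x)
  unfold oo
  omega

/-- The structure of the extremal sets of a class if `⌊log₂ x⌋` is odd. -/
lemma class_eq (hP : ∀ p ∈ P, 2 ^ p.1 * 3 ^ p.2 ≤ x) (hF : Fr P)
    (hodd : Odd (Nat.log 2 x)) (hc : P.card = oo x) :
    (∃ a, (a, Nat.log 3 x) ∈ P) ∧ ∃ a d, (0, d) ∈ P ∧ 0 < a ∧ (a, d) ∈ P := by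
  have h1 := Finset.sum_le_sum (fun b hb => row_bound hF (Nat.log 3 x) b hb)
  have h0 := card_eq_rows hP
  have h2 := two_dbl_le hP hF (Nat.log 3 x)
  have hs := sum_ind P (Nat.log 3 x)
  obtain ⟨c, hcodd⟩ := hodd
  have hoo : oo x = Nat.log 3 x + 1 + (c + 1) := by unfold oo; omega
  have hD : (dbl P (Nat.log 3 x)).card = c + 1 := by omega
  constructor
  · -- the last row is not empty
    by_contra hcon
    push Not at hcon
    have hemp : (P.filter (fun p => p.2 = Nat.log 3 x)).card = 0 := by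
      rw [Finset.card_eq_zero, Finset.filter_eq_empty_iff]
      intro p hp h
      exact hcon p.1 (by rw [← h]; exact hp)
    have hlt : ∑ b ∈ Finset.range (Nat.log 3 x + 1), (P.filter (fun p => p.2 = b)).card <
        ∑ b ∈ Finset.range (Nat.log 3 x + 1),
          (1 + (if b ∈ dbl P (Nat.log 3 x) then 1 else 0)) := by
      apply Finset.sum_lt_sum (fun b hb => row_bound hF (Nat.log 3 x) b hb)
      exact ⟨Nat.log 3 x, by simp, by rw [hemp]; positivity⟩
    omega
  · -- column `0` is used by a double row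
    have himg : (P.filter (fun p => p.2 ∈ dbl P (Nat.log 3 x))).image (fun p : ℕ × ℕ => p.1) =
        Finset.range (Nat.log 2 x + 1) := by
      apply Finset.eq_of_subset_of_card_le
      · intro a ha
        rw [Finset.mem_image] at ha
        obtain ⟨p, hp, rfl⟩ := ha
        rw [Finset.mem_range]
        have := (bounds_of (hP p (Finset.mem_filter.mp hp).1)).1
        omega
      · rw [Finset.card_image_of_injOn (col_inj hF _), card_dblset, Finset.card_range, hD]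
        omega
    have h0' : 0 ∈ (P.filter (fun p => p.2 ∈ dbl P (Nat.log 3 x))).image
        (fun p : ℕ × ℕ => p.1) := by rw [himg]; simp
    rw [Finset.mem_image] at h0'
    obtain ⟨p, hp, hp0⟩ := h0'
    rw [Finset.mem_filter] at hp
    have hd := hp.2
    unfold dbl at hd
    rw [Finset.mem_filter] at hd
    obtain ⟨q', hq', hq'2, hne⟩ := other_elt hd.2 rfl
    refine ⟨q'.1, p.2, ?_, by omega, ?_⟩
    · rw [← hp0]; exact hp.1
    · rw [← hq'2]; exact hq'

end

/-- the exponent pairs of the elements of `A` in the class of `m`. -/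
def cls (A : Finset ℕ) (n m : ℕ) : Finset (ℕ × ℕ) :=
  ((Finset.range (n + 1)) ×ˢ (Finset.range (n + 1))).filter (fun p => tt m p.1 p.2 ∈ A)

lemma mem_cls {A : Finset ℕ} {n m : ℕ} (hA : A ⊆ Finset.Icc 1 n) (hm : 1 ≤ m) {p : ℕ × ℕ} :
    p ∈ cls A n m ↔ tt m p.1 p.2 ∈ A := by
  unfold cls
  rw [Finset.mem_filter, Finset.mem_product, Finset.mem_range, Finset.mem_range]
  constructor
  · exact fun h => h.2
  · intro h
    refine ⟨?_, h⟩
    have h1 := hA h
    rw [Finset.mem_Icc] at h1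
    unfold tt at h1
    have e1 : p.1 < 2 ^ p.1 := Nat.lt_two_pow_self
    have e2 : p.2 < 3 ^ p.2 := Nat.lt_pow_self (by norm_num)
    have e3 : 2 ^ p.1 * 3 ^ p.2 ≤ m * (2 ^ p.1 * 3 ^ p.2) := Nat.le_mul_of_pos_left _ hm
    have e4 : 2 ^ p.1 ≤ 2 ^ p.1 * 3 ^ p.2 := Nat.le_mul_of_pos_right _ (by positivity)
    have e5 : 3 ^ p.2 ≤ 2 ^ p.1 * 3 ^ p.2 := Nat.le_mul_of_pos_left _ (by positivity)
    omega

lemma tt_pos {m : ℕ} (hm : 1 ≤ m) (a b : ℕ) : 1 ≤ tt m a b := by
  unfold tt; exact Nat.mul_pos hm (by positivity)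

lemma card_eq_cls {A : Finset ℕ} {n : ℕ} (hA : A ⊆ Finset.Icc 1 n) :
    A.card = ∑ m ∈ rgh 6 n, (cls A n m).card := by
  classical
  have h1 : A = (rgh 6 n).biUnion (fun m => (cls A n m).image (fun p => tt m p.1 p.2)) := by
    ext t
    rw [Finset.mem_biUnion]
    constructor
    · intro ht
      have h2 := hA ht
      rw [Finset.mem_Icc] at h2
      obtain ⟨m, a, b, hm, rfl⟩ := tt_exists (by omega : t ≠ 0)
      have hm1 : 1 ≤ m := by
        rcases Nat.eq_zero_or_pos m with h | h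
        · rw [h] at h2; unfold tt at h2; omega
        · exact h
      refine ⟨m, ?_, ?_⟩
      · rw [mem_rgh]
        refine ⟨⟨hm1, ?_⟩, hm⟩
        have : m ≤ tt m a b := Nat.le_mul_of_pos_right _ (by positivity)
        omega
      · rw [Finset.mem_image]
        exact ⟨(a, b), (mem_cls hA hm1).mpr ht, rfl⟩
    · rintro ⟨m, hm, ht⟩
      rw [Finset.mem_image] at ht
      obtain ⟨p, hp, rfl⟩ := ht
      rw [mem_rgh] at hm
      exact (mem_cls hA hm.1.1).mp hp
  conv_lhs => rw [h1]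
  rw [Finset.card_biUnion]
  · refine Finset.sum_congr rfl fun m hm => ?_
    rw [mem_rgh] at hm
    apply Finset.card_image_of_injOn
    intro p _ q _ h
    have := tt_unique hm.2 hm.2 h
    exact Prod.ext this.2.1 this.2.2
  · intro m hm m' hm' hne
    rw [Function.onFun, Finset.disjoint_left]
    intro t ht ht'
    rw [Finset.mem_image] at ht ht'
    obtain ⟨p, _, rfl⟩ := ht
    obtain ⟨q, _, hq⟩ := ht'
    rw [Finset.mem_coe, mem_rgh] at hm hm'
    exact hne (tt_unique hm'.2 hm.2 hq).1.symm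

lemma not_two {A : Finset ℕ} (hF : KMultipleFree 2 A) {t u v : ℕ} (ht : t ∈ A) (hu : u ∈ A)
    (hv : v ∈ A) (hut : u ≠ t) (hvt : v ≠ t) (huv : u ≠ v) (h1 : u ∣ t) (h2 : v ∣ t) : False := by
  classical
  refine hF t ht {u, v} ?_ ?_ (Finset.card_pair huv)
  · intro w hw
    rw [Finset.mem_insert, Finset.mem_singleton] at hw
    rw [Finset.mem_erase]
    rcases hw with rfl | rfl
    · exact ⟨hut, hu⟩
    · exact ⟨hvt, hv⟩
  · intro w hw
    rw [Finset.mem_insert, Finset.mem_singleton] at hw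
    rcases hw with rfl | rfl
    · exact h1
    · exact h2

lemma tt_dvd {m a b a' b' : ℕ} (h1 : a' ≤ a) (h2 : b' ≤ b) : tt m a' b' ∣ tt m a b := by
  unfold tt
  exact Nat.mul_dvd_mul_left _ (Nat.mul_dvd_mul (pow_dvd_pow 2 h1) (pow_dvd_pow 3 h2))

lemma cls_fr {A : Finset ℕ} {n m : ℕ} (hA : A ⊆ Finset.Icc 1 n) (hF : KMultipleFree 2 A)
    (hm : 1 ≤ m) (hc : Nat.Coprime 6 m) : Fr (cls A n m) := by
  intro p hp q hq r hr h1 h2 h3 h4 h5 h6 h7
  rw [mem_cls hA hm] at hp hq hr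
  refine not_two hF hp hq hr ?_ ?_ ?_ (tt_dvd h4 h5) (tt_dvd h6 h7)
  · intro h
    have := tt_unique hc hc h
    exact h1 (Prod.ext this.2.1 this.2.2)
  · intro h
    have := tt_unique hc hc h
    exact h2 (Prod.ext this.2.1 this.2.2)
  · intro h
    have := tt_unique hc hc h
    exact h3 (Prod.ext this.2.1 this.2.2)

lemma cls_bd {A : Finset ℕ} {n m : ℕ} (hA : A ⊆ Finset.Icc 1 n) (hm : 1 ≤ m) :
    ∀ p ∈ cls A n m, 2 ^ p.1 * 3 ^ p.2 ≤ n / m := by
  intro p hp
  rw [mem_cls hA hm] at hp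
  have := hA hp
  rw [Finset.mem_Icc] at this
  rw [Nat.le_div_iff_mul_le (by omega), mul_comm]
  exact this.2

/-- Facts on the exceptional `x`. -/
lemma Exc.facts {x : ℕ} (h : Exc x) :
    15 ≤ x ∧ Odd (Nat.log 2 (x / 5)) ∧ Nat.log 3 (x / 5) + 1 = Nat.log 3 x ∧
      x / 5 < 2 * 3 ^ Nat.log 3 (x / 5) ∧ ¬ Exc (x / 5) := by
  obtain ⟨h1, h2, h3, h4⟩ := h
  have hx : x ≠ 0 := by
    rintro rfl
    simp at h1
  set L := Nat.log 2 x with hL
  set B := Nat.log 3 x with hB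
  have p1 : 2 ^ L ≤ x := Nat.pow_log_le_self 2 hx
  have p2 : x < 2 ^ (L + 1) := Nat.lt_pow_succ_log_self (by norm_num) x
  have p3 : 3 ^ B ≤ x := Nat.pow_log_le_self 3 hx
  have p4 : x < 3 ^ (B + 1) := Nat.lt_pow_succ_log_self (by norm_num) x
  -- `B ≥ 1`
  obtain ⟨B', hB'⟩ : ∃ B', B = B' + 1 := by
    rcases Nat.eq_zero_or_pos B with h | h
    · rw [h] at h3 h4; omega
    · exact ⟨B - 1, by omega⟩
  rw [hB'] at h3 h4 p3 p4
  rw [pow_succ] at h3 h4 p3 p4
  -- `L ≥ 3`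
  have hL3 : 3 ≤ L := by
    by_contra hcon
    push Not at hcon
    have hL1 : L = 1 := by
      obtain ⟨c, hc⟩ := h1; omega
    rw [hL1] at h2 p1 p2
    have h3B : 1 ≤ 3 ^ B' := Nat.one_le_pow _ _ (by norm_num)
    omega
  obtain ⟨L', hL'⟩ : ∃ L', L = L' + 2 := ⟨L - 2, by omega⟩
  have e1 : 2 ^ L = 4 * 2 ^ L' := by rw [hL', pow_add]; ring
  have e2 : 2 ^ (L + 1) = 8 * 2 ^ L' := by rw [hL', pow_add, pow_add]; ring
  have q1 : Nat.log 2 (x / 5) = L' := by
    apply Nat.log_eq_of_pow_le_of_lt_pow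
    · rw [Nat.le_div_iff_mul_le (by norm_num)]; omega
    · rw [Nat.div_lt_iff_lt_mul (by norm_num), pow_succ]; omega
  have q2 : Nat.log 3 (x / 5) = B' := by
    apply Nat.log_eq_of_pow_le_of_lt_pow
    · rw [Nat.le_div_iff_mul_le (by norm_num)]; omega
    · rw [Nat.div_lt_iff_lt_mul (by norm_num), pow_succ]; omega
  have hL'1 : 1 ≤ L' := by omega
  have h2L : 2 ≤ 2 ^ L' := by
    calc 2 = 2 ^ 1 := by norm_num
      _ ≤ 2 ^ L' := Nat.pow_le_pow_right (by norm_num) hL'1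
  refine ⟨?_, ?_, ?_, ?_, ?_⟩
  · -- `x ≥ 15`
    have h3B : 1 ≤ 3 ^ B' := Nat.one_le_pow _ _ (by norm_num)
    by_contra hcon
    push Not at hcon
    have : 3 ^ B' ≤ 2 := by omega
    have : 3 ^ B' = 1 := by
      rcases Nat.eq_zero_or_pos B' with h | h
      · rw [h]; norm_num
      · have : 3 ^ 1 ≤ 3 ^ B' := Nat.pow_le_pow_right (by norm_num) h
        omega
    omega
  · rw [q1]
    obtain ⟨c, hc⟩ := h1
    exact ⟨c - 1, by omega⟩
  · rw [q2]; omega
  · rw [q2, Nat.div_lt_iff_lt_mul (by norm_num)]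
    have h3B : 1 ≤ 3 ^ B' := Nat.one_le_pow _ _ (by norm_num)
    omega
  · rintro ⟨_, _, g3, _⟩
    rw [q2] at g3
    have : x / 5 * 5 ≤ x := Nat.div_mul_le_self x 5
    omega

/-- Two classes cannot both be extremal at an exceptional place. -/
lemma two_classes {A : Finset ℕ} {n m : ℕ} (hA : A ⊆ Finset.Icc 1 n) (hF : KMultipleFree 2 A)
    (hm : 1 ≤ m) (hc : Nat.Coprime 6 m) (he : Exc (n / m)) :
    (cls A n m).card < oo (n / m) ∨ (cls A n (5 * m)).card < oo (n / (5 * m)) := by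
  have hc5 : Nat.Coprime 6 (5 * m) := Nat.Coprime.mul_right (by norm_num) hc
  have hm5 : 1 ≤ 5 * m := by omega
  obtain ⟨f1, f2, f3, f4, _⟩ := he.facts
  have hdiv : n / (5 * m) = n / m / 5 := by rw [mul_comm, Nat.div_div_eq_div_mul]
  set x := n / m with hx
  have hx1 : 1 ≤ x := by omega
  have hx5 : 1 ≤ x / 5 := by omega
  by_contra hcon
  push Not at hcon
  rw [hdiv] at hcon
  have b1 := cls_bd hA hm
  have b2 := cls_bd hA hm5
  rw [hdiv] at b2
  rw [← hx] at b1
  have c1 := class_le b1 (cls_fr hA hF hm hc)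
  have c2 := class_le b2 (cls_fr hA hF hm5 hc5)
  obtain ⟨_, a1, d1, s1, s2, s3⟩ := class_eq b1 (cls_fr hA hF hm hc) he.1 (by omega)
  obtain ⟨⟨a2, r1⟩, a3, d3, r2, r3, r4⟩ := class_eq b2 (cls_fr hA hF hm5 hc5) f2 (by omega)
  set B' := Nat.log 3 (x / 5) with hB'
  -- `a2 = 0`
  have ha2 : a2 = 0 := by
    have := b2 _ r1
    simp only at this
    by_contra hne
    have : 2 ^ 1 ≤ 2 ^ a2 := Nat.pow_le_pow_right (by norm_num) (by omega)
    have : 2 * 3 ^ B' ≤ 2 ^ a2 * 3 ^ B' := Nat.mul_le_mul_right _ (by omega)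
    omega
  rw [ha2] at r1
  -- `d1 ≤ B'`
  have hd1 : d1 ≤ B' := by
    have h1 := b1 _ s3
    simp only at h1
    have h2 : 2 ^ 1 ≤ 2 ^ a1 := Nat.pow_le_pow_right (by norm_num) (by omega)
    have h3 : 2 * 3 ^ d1 ≤ 2 ^ a1 * 3 ^ d1 := Nat.mul_le_mul_right _ (by omega)
    have h4 := he.2.2.2
    have h5 : 3 ^ d1 < 3 ^ Nat.log 3 x := by omega
    have h6 := (Nat.pow_lt_pow_iff_right (by norm_num)).mp h5
    omega
  -- `d3 < B'`
  have hd3 : d3 < B' := by
    have h1 := b2 _ r4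
    simp only at h1
    have h2 : 2 ^ 1 ≤ 2 ^ a3 := Nat.pow_le_pow_right (by norm_num) (by omega)
    have h3 : 2 * 3 ^ d3 ≤ 2 ^ a3 * 3 ^ d3 := Nat.mul_le_mul_right _ (by omega)
    have h5 : 3 ^ d3 < 3 ^ B' := by omega
    exact (Nat.pow_lt_pow_iff_right (by norm_num)).mp h5
  rw [mem_cls hA hm] at s1
  rw [mem_cls hA hm5] at r1 r2
  simp only at s1 r1 r2
  refine not_two hF r1 s1 r2 ?_ ?_ ?_ ?_ (tt_dvd le_rfl hd3.le)
  · intro h
    have := (tt_unique hc hc5 h).1
    omega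
  · intro h
    have := (tt_unique hc5 hc5 h).2.2
    omega
  · intro h
    have := (tt_unique hc hc5 h).1
    omega
  · have h1 : tt m 0 d1 ∣ tt m 0 B' := tt_dvd le_rfl hd1
    have h2 : tt (5 * m) 0 B' = 5 * tt m 0 B' := by unfold tt; ring
    rw [h2]
    exact h1.trans (Dvd.intro_left 5 rfl)

/-- Upper bound for `g_2(n)`. -/
theorem gk2_le (n : ℕ) : gk 2 n ≤ ∑ m ∈ rgh 6 n, hh (n / m) := by
  classical
  obtain ⟨A, hA, hF, hcard⟩ := exists_opt 2 (Finset.Icc 1 n)
  rw [gk_eq_opt, ← hcard, card_eq_cls hA]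
  set D := (rgh 6 n).filter (fun m => Exc (n / m)) with hD
  -- deficits
  have hle : ∀ m ∈ rgh 6 n, (cls A n m).card ≤ oo (n / m) := by
    intro m hm
    rw [mem_rgh] at hm
    exact class_le (cls_bd hA hm.1.1) (cls_fr hA hF hm.1.1 hm.2)
  have hdef : ∀ m ∈ D, ∃ m' ∈ rgh 6 n, (m' = m ∨ m' = 5 * m) ∧
      (cls A n m').card < oo (n / m') := by
    intro m hm
    rw [hD, Finset.mem_filter, mem_rgh] at hm
    obtain ⟨⟨⟨g1, g2⟩, g3⟩, g4⟩ := hm
    rcases two_classes hA hF g1 g3 g4 with h | h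
    · exact ⟨m, mem_rgh.mpr ⟨⟨g1, g2⟩, g3⟩, Or.inl rfl, h⟩
    · refine ⟨5 * m, ?_, Or.inr rfl, h⟩
      rw [mem_rgh]
      refine ⟨⟨by omega, ?_⟩, Nat.Coprime.mul_right (by norm_num) g3⟩
      have := g4.facts.1
      have h5 : 5 ≤ n / m := by omega
      rw [Nat.le_div_iff_mul_le g1] at h5
      exact h5
  choose! f hf1 hf2 hf3 using hdef
  have hinj : Set.InjOn f (D : Set ℕ) := by
    intro m hm m' hm' h
    rw [Finset.mem_coe] at hm hm'
    have a1 := hf2 m hm
    have a2 := hf2 m' hm'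
    rw [hD, Finset.mem_filter, mem_rgh] at hm hm'
    have key : ∀ u v : ℕ, u = 5 * v → Exc (n / u) → Exc (n / v) → False := by
      intro u v huv hu hv
      rw [huv, mul_comm, ← Nat.div_div_eq_div_mul] at hu
      exact hv.facts.2.2.2.2 hu
    rcases a1 with a1 | a1 <;> rcases a2 with a2 | a2
    · omega
    · exact (key m m' (by omega) hm.2 hm'.2).elim
    · exact (key m' m (by omega) hm'.2 hm.2).elim
    · omega
  set I := D.image f with hI
  have hIsub : I ⊆ rgh 6 n := by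
    intro m hm
    rw [hI, Finset.mem_image] at hm
    obtain ⟨m', hm', rfl⟩ := hm
    exact hf1 m' hm'
  have hIcard : I.card = D.card := Finset.card_image_of_injOn hinj
  -- sums
  have h1 : ∑ m ∈ rgh 6 n, (cls A n m).card + I.card ≤ ∑ m ∈ rgh 6 n, oo (n / m) := by
    have h2 : I.card = ∑ m ∈ rgh 6 n, (if m ∈ I then 1 else 0) := by
      rw [← Finset.sum_filter, Finset.sum_const, smul_eq_mul, mul_one]
      congr 1
      ext m
      rw [Finset.mem_filter]
      exact ⟨fun h => ⟨hIsub h, h⟩, fun h => h.2⟩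
    rw [h2, ← Finset.sum_add_distrib]
    refine Finset.sum_le_sum fun m hm => ?_
    split_ifs with hmI
    · rw [hI, Finset.mem_image] at hmI
      obtain ⟨m', hm', rfl⟩ := hmI
      have := hf3 m' hm'
      omega
    · have := hle m hm
      omega
  have h3 : ∑ m ∈ rgh 6 n, hh (n / m) + D.card = ∑ m ∈ rgh 6 n, oo (n / m) := by
    have h4 : D.card = ∑ m ∈ rgh 6 n, (if Exc (n / m) then 1 else 0) := by
      rw [← Finset.sum_filter, Finset.sum_const, smul_eq_mul, mul_one]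
    rw [h4, ← Finset.sum_add_distrib]
    refine Finset.sum_congr rfl fun m _ => ?_
    rw [hh_eq]
    have := oo_pos (n / m)
    split_ifs <;> omega
  omega

end Pool.Agent.H96.KMF
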