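import Pool.Agent.H96.KMF.K2.Pred
import Pool.Agent.H96.KMF.K2.Upper2

/-!
# The case `k = 2`: the size of the extremal set
-/

set_option autoImplicit false

namespace Pool.Agent.H96.KMF

open Finset

/-- `⌊log₂ (n / m)⌋` -/
def LL (n m : ℕ) : ℕ := Nat.log 2 (n / m)

/-- `m 2^⌊log₂ (n / m)⌋` -/
def WW (n m : ℕ) : ℕ := m * 2 ^ LL n m

open Classical in
/-- the set before the correction -/
noncomputable def A0 (n : ℕ) : Finset ℕ :=
  (Finset.Icc 1 n).filter (fun t => ∃ m a b, Nat.Coprime 6 m ∧ t = tt m a b ∧
    Pd n t (WW n m) a (LL n m))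

lemma A0_sub (n : ℕ) : A0 n ⊆ Finset.Icc 1 n := by
  classical
  unfold A0; exact Finset.filter_subset _ _

lemma mem_A0 {n m a b : ℕ} (hc : Nat.Coprime 6 m) (hm : 1 ≤ m) :
    tt m a b ∈ A0 n ↔ tt m a b ≤ n ∧ Pd n (tt m a b) (WW n m) a (LL n m) := by
  classical
  unfold A0
  rw [Finset.mem_filter, Finset.mem_Icc]
  constructor
  · rintro ⟨⟨_, h2⟩, m', a', b', hc', he, hP⟩
    obtain ⟨rfl, rfl, rfl⟩ := tt_unique hc hc' he
    exact ⟨h2, hP⟩
  · rintro ⟨h1, h2⟩
    exact ⟨⟨tt_pos hm a b, h1⟩, m, a, b, hc, rfl, h2⟩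

lemma WW_le {n m : ℕ} (hm : 1 ≤ m) (hmn : m ≤ n) : WW n m ≤ n ∧ n < 2 * WW n m := by
  unfold WW LL
  have h1 : n / m ≠ 0 := (Nat.div_pos hmn hm).ne'
  have h2 := Nat.pow_log_le_self 2 h1
  have h3 := Nat.lt_pow_succ_log_self (b := 2) (by norm_num) (n / m)
  rw [Nat.le_div_iff_mul_le (by omega)] at h2
  rw [Nat.div_lt_iff_lt_mul (by omega)] at h3
  constructor
  · rw [mul_comm]; exact h2
  · calc n < 2 ^ (Nat.log 2 (n / m) + 1) * m := h3
      _ = 2 * (m * 2 ^ Nat.log 2 (n / m)) := by rw [pow_succ]; ring

lemma pow4_find (N T : ℕ) (hT : 0 < T) :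
    ∃ j, N < T * 4 ^ j ∧ ∀ i, j = i + 1 → T * 4 ^ i ≤ N := by
  classical
  have hex : ∃ j, N < T * 4 ^ j := by
    refine ⟨N, ?_⟩
    calc N < 4 ^ N := Nat.lt_pow_self (by norm_num)
      _ ≤ T * 4 ^ N := Nat.le_mul_of_pos_left _ hT
  refine ⟨Nat.find hex, Nat.find_spec hex, fun i hi => ?_⟩
  have := Nat.find_min hex (m := i) (by omega)
  omega

lemma pow3_find (N T : ℕ) (hT : 0 < T) (h : T ≤ N) :
    ∃ b, T * 3 ^ b ≤ N ∧ N < T * 3 ^ (b + 1) := by
  refine ⟨Nat.log 3 (N / T), ?_, ?_⟩
  · have h1 := Nat.pow_log_le_self 3 (Nat.div_pos h hT).ne'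
    rw [Nat.le_div_iff_mul_le hT] at h1
    rw [mul_comm]; exact h1
  · have h3 := Nat.lt_pow_succ_log_self (b := 3) (by norm_num) (N / T)
    rw [Nat.div_lt_iff_lt_mul hT] at h3
    rw [mul_comm]; exact h3

section count

variable {n m : ℕ}

/-- the first kind of elements -/
def K1 (n m : ℕ) (p : ℕ × ℕ) : Prop :=
  (p.1 % 2 = LL n m % 2 ∧ 1 ≤ p.1) ∨ (p.1 = 0 ∧ LL n m % 2 = 0 ∧ 14 * tt m p.1 p.2 ≤ 3 * n)

/-- the second kind of elements -/
def K2 (n m : ℕ) (p : ℕ × ℕ) : Prop :=
  p.1 % 2 ≠ LL n m % 2 ∨ (p.1 = 0 ∧ n < 4 * tt m p.1 p.2)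

lemma K12 (p : ℕ × ℕ) (h1 : K1 n m p) (h2 : K2 n m p) : False := by
  unfold K1 at h1
  unfold K2 at h2
  omega

/-- columns -/
lemma col_exists (hc : Nat.Coprime 6 m) (hm : 1 ≤ m) (hmn : m ≤ n) (c : ℕ) (h1 : 1 ≤ c)
    (h2 : c ≤ LL n m) (h3 : c % 2 = LL n m % 2) :
    ∃ p ∈ cls (A0 n) n m, K1 n m p ∧ (if p.1 = 0 then 2 else p.1) = c := by
  obtain ⟨w1, w2⟩ := WW_le hm hmn
  have hT0 : m * 2 ^ c ≤ WW n m := Nat.mul_le_mul_left _ (Nat.pow_le_pow_right (by norm_num) h2)
  have hT0' : 0 < m * 2 ^ c := by positivity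
  have hform : ∀ b, tt m c b = m * 2 ^ c * 3 ^ b := fun b => by unfold tt; ring
  have hmem : ∀ b, tt m c b ≤ n → Pd n (tt m c b) (WW n m) c (LL n m) →
      ∃ p ∈ cls (A0 n) n m, K1 n m p ∧ (if p.1 = 0 then 2 else p.1) = c := by
    intro b g1 g2
    refine ⟨(c, b), ?_, Or.inl ⟨h3, h1⟩, ?_⟩
    · rw [mem_cls (A0_sub n) hm, mem_A0 hc hm]; exact ⟨g1, g2⟩
    · simp only
      rw [if_neg (by omega)]
  -- the plain choice
  have plain : (∀ b, tt m c b ≤ n → n < 3 * tt m c b → Pd n (tt m c b) (WW n m) c (LL n m)) →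
      ∃ p ∈ cls (A0 n) n m, K1 n m p ∧ (if p.1 = 0 then 2 else p.1) = c := by
    intro hp
    obtain ⟨b, hb1, hb2⟩ := pow3_find n (m * 2 ^ c) hT0' (by omega)
    rw [← hform] at hb1
    have hb3 : n < 3 * tt m c b := by rw [hform]; rw [pow_succ] at hb2; linarith
    exact hmem b hb1 (hp b hb1 hb3)
  by_cases hact : 8 * WW n m ≤ 5 * n
  · by_cases hL : LL n m % 2 = 0
    · -- even, active
      obtain ⟨b, hb1, hb2⟩ := pow3_find (5 * n) (6 * (m * 2 ^ c)) (by positivity) (by omega)
      have hb1' : 6 * tt m c b ≤ 5 * n := by rw [hform]; linarith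
      have hb2' : 5 * n < 18 * tt m c b := by rw [hform]; rw [pow_succ] at hb2; linarith
      by_cases hc2 : c = 2
      · by_cases h7 : 2 * n < 7 * tt m c b
        · apply hmem b (by omega)
          unfold Pd
          rw [if_pos hact, if_pos h3, if_pos hL, if_neg (by omega), if_pos hc2]
          exact ⟨hb1', h7⟩
        · push Not at h7
          have hrel : 4 * tt m 0 (b + 1) = 3 * tt m c b := by
            rw [hc2]; unfold tt; rw [pow_succ]; ring
          have hp2 : 14 * tt m 0 (b + 1) ≤ 3 * n := by omega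
          refine ⟨(0, b + 1), ?_, Or.inr ⟨rfl, hL, hp2⟩, ?_⟩
          · rw [mem_cls (A0_sub n) hm, mem_A0 hc hm]
            refine ⟨by simp only; omega, ?_⟩
            simp only
            unfold Pd
            rw [if_pos hact, if_pos (by omega), if_pos hL, if_pos rfl]
            right; exact ⟨hp2, by omega⟩
          · simp [hc2]
      · apply hmem b (by omega)
        unfold Pd
        rw [if_pos hact, if_pos h3, if_pos hL, if_neg (by omega), if_neg hc2]
        exact ⟨hb1', hb2'⟩
    · by_cases hc1 : c = 1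
      · apply plain
        intro b g1 g2
        unfold Pd
        rw [if_pos hact, if_pos h3, if_neg hL, if_pos hc1]
        exact g2
      · obtain ⟨b, hb1, hb2⟩ := pow3_find (5 * n) (6 * (m * 2 ^ c)) (by positivity) (by omega)
        have hb1' : 6 * tt m c b ≤ 5 * n := by rw [hform]; linarith
        have hb2' : 5 * n < 18 * tt m c b := by rw [hform]; rw [pow_succ] at hb2; linarith
        apply hmem b (by omega)
        unfold Pd
        rw [if_pos hact, if_pos h3, if_neg hL, if_neg hc1]
        exact ⟨hb1', hb2'⟩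
  · apply plain
    intro b g1 g2
    unfold Pd
    rw [if_neg hact, if_pos h3]
    exact Or.inl g2

/-- rows -/
lemma row_exists (hc : Nat.Coprime 6 m) (hm : 1 ≤ m) (hmn : m ≤ n) (b : ℕ)
    (hb : m * 3 ^ b ≤ n) :
    ∃ p ∈ cls (A0 n) n m, K2 n m p ∧
      (if p.1 = 0 ∧ LL n m % 2 = 0 ∧ 10 * tt m p.1 p.2 ≤ 3 * n then p.2 - 1 else p.2) = b := by
  obtain ⟨w1, w2⟩ := WW_le hm hmn
  set T0 := m * 3 ^ b with hT0
  have hT0' : 0 < T0 := by positivity
  have hform : ∀ a, tt m a b = T0 * 2 ^ a := fun a => by unfold tt; rw [hT0]; ring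
  -- an element of the row, of the second parity
  have hmem : ∀ a, a % 2 ≠ LL n m % 2 → tt m a b ≤ n → Pd n (tt m a b) (WW n m) a (LL n m) →
      ∃ p ∈ cls (A0 n) n m, K2 n m p ∧
      (if p.1 = 0 ∧ LL n m % 2 = 0 ∧ 10 * tt m p.1 p.2 ≤ 3 * n then p.2 - 1 else p.2) = b := by
    intro a g0 g1 g2
    refine ⟨(a, b), ?_, Or.inl g0, ?_⟩
    · rw [mem_cls (A0_sub n) hm, mem_A0 hc hm]; exact ⟨g1, g2⟩
    · simp only
      rw [if_neg (by omega)]
  -- the element in column `0`
  have hzero : LL n m % 2 = 0 → n < 3 * T0 → ∃ p ∈ cls (A0 n) n m, K2 n m p ∧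
      (if p.1 = 0 ∧ LL n m % 2 = 0 ∧ 10 * tt m p.1 p.2 ≤ 3 * n then p.2 - 1 else p.2) = b := by
    intro hL h
    have e0 : tt m 0 b = T0 := by rw [hform]; simp
    refine ⟨(0, b), ?_, Or.inr ⟨rfl, by simp only; omega⟩, ?_⟩
    · rw [mem_cls (A0_sub n) hm, mem_A0 hc hm]
      refine ⟨by simp only; omega, ?_⟩
      simp only
      unfold Pd
      by_cases hact : 8 * WW n m ≤ 5 * n
      · rw [if_pos hact, if_pos (by omega), if_pos hL, if_pos rfl]
        left; omega
      · rw [if_neg hact, if_pos (by omega)]
        left; omega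
    · simp only
      rw [if_neg (by omega)]
  by_cases hL : LL n m % 2 = 0
  · -- `L` even
    by_cases h3 : n < 3 * T0
    · exact hzero hL h3
    · push Not at h3
      by_cases hact : 8 * WW n m ≤ 5 * n
      · by_cases h14 : n < 14 * T0
        · have e1 : tt m 1 b = 2 * T0 := by rw [hform]; ring
          apply hmem 1 (by omega) (by omega)
          unfold Pd
          rw [if_pos hact, if_neg (by omega), if_pos hL, if_pos rfl]
          omega
        · push Not at h14
          obtain ⟨j, hj1, hj2⟩ := pow4_find (5 * n) (288 * T0) (by omega)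
          have ej : tt m (2 * j + 3) b = 8 * T0 * 4 ^ j := by
            rw [hform, pow_add, pow_mul]; norm_num; ring
          have hj1' : 5 * n < 36 * tt m (2 * j + 3) b := by rw [ej]; linarith
          rcases Nat.eq_zero_or_pos j with hj0 | hj0
          · rw [hj0] at ej hj1'
            simp only [mul_zero, zero_add, pow_zero, mul_one] at ej hj1'
            apply hmem 3 (by omega) (by omega)
            unfold Pd
            rw [if_pos hact, if_neg (by omega), if_pos hL, if_neg (by omega), if_pos rfl]
            omega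
          · obtain ⟨i, rfl⟩ : ∃ i, j = i + 1 := ⟨j - 1, by omega⟩
            have hi : 288 * (T0 * 4 ^ i) ≤ 5 * n := by have := hj2 i rfl; linarith
            have ej' : tt m (2 * (i + 1) + 3) b = 32 * (T0 * 4 ^ i) := by
              rw [ej, pow_succ]; ring
            apply hmem (2 * (i + 1) + 3) (by omega) (by omega)
            unfold Pd
            rw [if_pos hact, if_neg (by omega), if_pos hL, if_neg (by omega), if_neg (by omega)]
            omega
      · by_cases hxt : 4 * n < 5 * WW n m
        · by_cases h10 : n < 10 * T0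
          · have e1 : tt m 1 b = 2 * T0 := by rw [hform]; ring
            apply hmem 1 (by omega) (by omega)
            unfold Pd
            rw [if_neg hact, if_neg (by omega), if_neg (by omega), if_pos ⟨hxt, hL, rfl⟩]
            omega
          · push Not at h10
            by_cases h12 : n < 12 * T0
            · have e1 : tt m 0 (b + 1) = 3 * T0 := by unfold tt; rw [hT0, pow_succ]; ring
              refine ⟨(0, b + 1), ?_, Or.inr ⟨rfl, by simp only; omega⟩, ?_⟩
              · rw [mem_cls (A0_sub n) hm, mem_A0 hc hm]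
                refine ⟨by simp only; omega, ?_⟩
                simp only
                unfold Pd
                rw [if_neg hact, if_pos (by omega)]
                right
                exact ⟨hxt, hL, rfl, by omega, by omega⟩
              · have h10' : 10 * tt m 0 (b + 1) ≤ 3 * n := by omega
                simp [hL, h10']
            · push Not at h12
              obtain ⟨j, hj1, hj2⟩ := pow4_find n (48 * T0) (by omega)
              have ej : tt m (2 * j + 3) b = 8 * T0 * 4 ^ j := by
                rw [hform, pow_add, pow_mul]; norm_num; ring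
              have hj1' : n < 6 * tt m (2 * j + 3) b := by rw [ej]; linarith
              rcases Nat.eq_zero_or_pos j with hj0 | hj0
              · rw [hj0] at ej hj1'
                simp only [mul_zero, zero_add, pow_zero, mul_one] at ej hj1'
                apply hmem 3 (by omega) (by omega)
                unfold Pd
                rw [if_neg hact, if_neg (by omega), if_neg (by omega), if_neg (by omega)]
                omega
              · obtain ⟨i, rfl⟩ : ∃ i, j = i + 1 := ⟨j - 1, by omega⟩
                have hi : 48 * (T0 * 4 ^ i) ≤ n := by have := hj2 i rfl; linarith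
                have ej' : tt m (2 * (i + 1) + 3) b = 32 * (T0 * 4 ^ i) := by
                  rw [ej, pow_succ]; ring
                apply hmem (2 * (i + 1) + 3) (by omega) (by omega)
                unfold Pd
                rw [if_neg hact, if_neg (by omega), if_neg (by omega), if_neg (by omega)]
                omega
        · obtain ⟨j, hj1, hj2⟩ := pow4_find n (12 * T0) (by omega)
          have ej : tt m (2 * j + 1) b = 2 * T0 * 4 ^ j := by
            rw [hform, pow_add, pow_mul]; norm_num; ring
          have hj1' : n < 6 * tt m (2 * j + 1) b := by rw [ej]; linarith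
          rcases Nat.eq_zero_or_pos j with hj0 | hj0
          · rw [hj0] at ej hj1'
            simp only [mul_zero, zero_add, pow_zero, mul_one] at ej hj1'
            apply hmem 1 (by omega) (by omega)
            unfold Pd
            rw [if_neg hact, if_neg (by omega), if_neg (by omega), if_neg (by omega)]
            omega
          · obtain ⟨i, rfl⟩ : ∃ i, j = i + 1 := ⟨j - 1, by omega⟩
            have hi : 12 * (T0 * 4 ^ i) ≤ n := by have := hj2 i rfl; linarith
            have ej' : tt m (2 * (i + 1) + 1) b = 8 * (T0 * 4 ^ i) := by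
              rw [ej, pow_succ]; ring
            apply hmem (2 * (i + 1) + 1) (by omega) (by omega)
            unfold Pd
            rw [if_neg hact, if_neg (by omega), if_neg (by omega), if_neg (by omega)]
            omega
  · -- `L` odd
    by_cases h6 : n < 6 * T0
    · have e1 : tt m 0 b = T0 := by rw [hform]; simp
      apply hmem 0 (by omega) (by omega)
      unfold Pd
      by_cases hact : 8 * WW n m ≤ 5 * n
      · rw [if_pos hact, if_neg (by omega), if_neg hL, if_pos rfl]
        omega
      · rw [if_neg hact, if_neg (by omega), if_pos rfl]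
        omega
    · push Not at h6
      by_cases hact : 8 * WW n m ≤ 5 * n
      · obtain ⟨j, hj1, hj2⟩ := pow4_find (5 * n) (144 * T0) (by omega)
        have ej : tt m (2 * j + 2) b = 4 * T0 * 4 ^ j := by
          rw [hform, pow_add, pow_mul]; norm_num; ring
        have hj1' : 5 * n < 36 * tt m (2 * j + 2) b := by rw [ej]; linarith
        rcases Nat.eq_zero_or_pos j with hj0 | hj0
        · rw [hj0] at ej hj1'
          simp only [mul_zero, zero_add, pow_zero, mul_one] at ej hj1'
          apply hmem 2 (by omega) (by omega)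
          unfold Pd
          rw [if_pos hact, if_neg (by omega), if_neg hL, if_neg (by omega), if_pos rfl]
          omega
        · obtain ⟨i, rfl⟩ : ∃ i, j = i + 1 := ⟨j - 1, by omega⟩
          have hi : 144 * (T0 * 4 ^ i) ≤ 5 * n := by have := hj2 i rfl; linarith
          have ej' : tt m (2 * (i + 1) + 2) b = 16 * (T0 * 4 ^ i) := by
            rw [ej, pow_succ]; ring
          apply hmem (2 * (i + 1) + 2) (by omega) (by omega)
          unfold Pd
          rw [if_pos hact, if_neg (by omega), if_neg hL, if_neg (by omega), if_neg (by omega)]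
          omega
      · obtain ⟨j, hj1, hj2⟩ := pow4_find n (24 * T0) (by omega)
        have ej : tt m (2 * j + 2) b = 4 * T0 * 4 ^ j := by
          rw [hform, pow_add, pow_mul]; norm_num; ring
        have hj1' : n < 6 * tt m (2 * j + 2) b := by rw [ej]; linarith
        rcases Nat.eq_zero_or_pos j with hj0 | hj0
        · rw [hj0] at ej hj1'
          simp only [mul_zero, zero_add, pow_zero, mul_one] at ej hj1'
          apply hmem 2 (by omega) (by omega)
          unfold Pd
          rw [if_neg hact, if_neg (by omega), if_neg (by omega), if_neg (by omega)]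
          omega
        · obtain ⟨i, rfl⟩ : ∃ i, j = i + 1 := ⟨j - 1, by omega⟩
          have hi : 24 * (T0 * 4 ^ i) ≤ n := by have := hj2 i rfl; linarith
          have ej' : tt m (2 * (i + 1) + 2) b = 16 * (T0 * 4 ^ i) := by
            rw [ej, pow_succ]; ring
          apply hmem (2 * (i + 1) + 2) (by omega) (by omega)
          unfold Pd
          rw [if_neg hact, if_neg (by omega), if_neg (by omega), if_neg (by omega)]
          omega

end count

end Pool.Agent.H96.KMF
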