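import Pool.Agent.H96.KMF.Basic

/-!
# The case `k = 2`: definitions and coordinates
-/

set_option autoImplicit false

namespace Pool.Agent.H96.KMF

open Finset

/-- The exceptional `x`: `⌊log₂ x⌋` is odd and `x` is at least `5 · 2 ^ ⌊log₂ x⌋ / 4` and at least
`5 · 3 ^ ⌊log₃ x⌋ / 3`, and less than `2 · 3 ^ ⌊log₃ x⌋`. -/
def Exc (x : ℕ) : Prop :=
  Odd (Nat.log 2 x) ∧ 5 * 2 ^ Nat.log 2 x ≤ 4 * x ∧ 5 * 3 ^ Nat.log 3 x ≤ 3 * x ∧
    x < 2 * 3 ^ Nat.log 3 x

instance : DecidablePred Exc := fun x => by unfold Exc; infer_instance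

/-- `h x = 1 + ⌊log₂ x⌋ + ⌊log₃ x⌋ - ⌊log₄ x⌋ - [x exceptional]`. -/
def hh (x : ℕ) : ℕ :=
  1 + Nat.log 2 x + Nat.log 3 x - Nat.log 4 x - (if Exc x then 1 else 0)

/-- `h x` without the correction. -/
def oo (x : ℕ) : ℕ := Nat.log 3 x + 1 + (Nat.log 2 x + 1) / 2

lemma hh_eq (x : ℕ) : hh x = oo x - (if Exc x then 1 else 0) := by
  unfold hh oo
  have h : Nat.log 4 x = Nat.log 2 x / 2 := by
    rw [show (4 : ℕ) = 2 ^ 2 by norm_num, Nat.log_pow_left]
  rw [h]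
  congr 1
  omega

lemma oo_pos (x : ℕ) : 1 ≤ oo x := by unfold oo; omega

lemma smo6 {s : ℕ} (hs : Smo 6 s) : ∃ a b, s = 2 ^ a * 3 ^ b := by
  induction s using Nat.strong_induction_on with
  | _ s ih =>
    by_cases h1 : s = 1
    · exact ⟨0, 0, by simp [h1]⟩
    · obtain ⟨p, hp, hd⟩ := Nat.exists_prime_and_dvd h1
      have h6 := hs.2 p hp hd
      obtain ⟨t, rfl⟩ := hd
      have ht0 : t ≠ 0 := by rintro rfl; exact hs.1 (by simp)
      have hts : Smo 6 t := hs.of_dvd (Dvd.intro_left p rfl)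
      obtain ⟨a, b, hab⟩ := ih t (by
        have := hp.one_lt
        nlinarith [Nat.pos_of_ne_zero ht0]) hts
      have hp23 : p = 2 ∨ p = 3 := by
        have : p ∣ 2 * 3 := h6
        rcases (Nat.Prime.dvd_mul hp).mp this with h | h
        · left; exact (Nat.prime_dvd_prime_iff_eq hp Nat.prime_two).mp h
        · right; exact (Nat.prime_dvd_prime_iff_eq hp Nat.prime_three).mp h
      rcases hp23 with rfl | rfl
      · exact ⟨a + 1, b, by rw [hab]; ring⟩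
      · exact ⟨a, b + 1, by rw [hab]; ring⟩

lemma smo_23 (a b : ℕ) : Smo 6 (2 ^ a * 3 ^ b) := by
  refine ⟨by positivity, fun p hp hd => ?_⟩
  rcases (Nat.Prime.dvd_mul hp).mp hd with h | h
  · have := (Nat.prime_dvd_prime_iff_eq hp Nat.prime_two).mp (hp.dvd_of_dvd_pow h)
    rw [this]; norm_num
  · have := (Nat.prime_dvd_prime_iff_eq hp Nat.prime_three).mp (hp.dvd_of_dvd_pow h)
    rw [this]; norm_num

/-- the number with coordinates `(m, a, b)`. -/
def tt (m a b : ℕ) : ℕ := m * (2 ^ a * 3 ^ b)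

lemma tt_exists {t : ℕ} (ht : t ≠ 0) : ∃ m a b, Nat.Coprime 6 m ∧ t = tt m a b := by
  obtain ⟨m, s, hm, hs, rfl⟩ := exists_decomp 6 t ht
  obtain ⟨a, b, rfl⟩ := smo6 hs
  exact ⟨m, a, b, hm, rfl⟩

lemma tt_unique {m m' a a' b b' : ℕ} (hm : Nat.Coprime 6 m) (hm' : Nat.Coprime 6 m')
    (h : tt m a b = tt m' a' b') : m = m' ∧ a = a' ∧ b = b' := by
  obtain ⟨h1, h2⟩ := decomp_unique hm hm' (smo_23 a b) (smo_23 a' b') h
  refine ⟨h1, ?_⟩
  have f : ∀ c d : ℕ, (2 ^ c * 3 ^ d).factorization 2 = c ∧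
      (2 ^ c * 3 ^ d).factorization 3 = d := by
    intro c d
    rw [Nat.factorization_mul (by positivity) (by positivity), Nat.Prime.factorization_pow
      Nat.prime_two, Nat.Prime.factorization_pow Nat.prime_three]
    simp
  have e1 := (f a b).1
  have e2 := (f a b).2
  rw [h2] at e1 e2
  exact ⟨e1.symm.trans (f a' b').1, e2.symm.trans (f a' b').2⟩

lemma coprime6_mul {m μ : ℕ} (hm : Nat.Coprime 6 m) (hμ : Nat.Coprime 6 μ) :
    Nat.Coprime 6 (m * μ) := Nat.Coprime.mul_right hm hμ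

/-- coordinates of a product. -/
lemma tt_mul {m a b m' a' b' μ α β : ℕ} (hm : Nat.Coprime 6 m) (hm' : Nat.Coprime 6 m')
    (hμ : Nat.Coprime 6 μ) (h : tt m a b = tt μ α β * tt m' a' b') :
    m = μ * m' ∧ a = α + a' ∧ b = β + b' := by
  apply tt_unique hm (Nat.Coprime.mul_right hμ hm')
  rw [h]; unfold tt; ring

end Pool.Agent.H96.KMF
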