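import Pool.Agent.H96.KMF.K2.Count

/-!
# The case `k = 2`: the lower bound and the exact formula
-/

set_option autoImplicit false

namespace Pool.Agent.H96.KMF

open Finset

lemma card_parity (L : ℕ) :
    ((Finset.Icc 1 L).filter (fun c => c % 2 = L % 2)).card = (L + 1) / 2 := by
  have h : ∀ N : ℕ, ∀ e : ℕ, e < 2 → ((Finset.Icc 1 N).filter (fun c => c % 2 = e)).card =
      (N + e) / 2 := by
    intro N e he
    induction N with
    | zero => simp; omega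
    | succ N ih =>
      have hins : Finset.Icc 1 (N + 1) = insert (N + 1) (Finset.Icc 1 N) := by
        ext x; simp only [Finset.mem_Icc, Finset.mem_insert]; omega
      rw [hins, Finset.filter_insert]
      split_ifs with h
      · rw [Finset.card_insert_of_notMem (by simp), ih]; omega
      · rw [ih]; omega
  rw [h L (L % 2) (by omega)]
  omega

/-- Every class has at least `oo x` elements. -/
lemma oo_le_cls {n m : ℕ} (hc : Nat.Coprime 6 m) (hm : 1 ≤ m) (hmn : m ≤ n) :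
    oo (n / m) ≤ (cls (A0 n) n m).card := by
  classical
  set C := cls (A0 n) n m with hC
  set C1 := C.filter (K1 n m) with hC1
  set C2 := C.filter (K2 n m) with hC2
  have hdisj : Disjoint C1 C2 := by
    rw [Finset.disjoint_left]
    intro p h1 h2
    rw [hC1, Finset.mem_filter] at h1
    rw [hC2, Finset.mem_filter] at h2
    exact K12 p h1.2 h2.2
  have hunion : C1 ∪ C2 ⊆ C := by
    apply Finset.union_subset <;> exact Finset.filter_subset _ _
  have hcard : C1.card + C2.card ≤ C.card := by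
    rw [← Finset.card_union_of_disjoint hdisj]
    exact Finset.card_le_card hunion
  have h1 : (LL n m + 1) / 2 ≤ C1.card := by
    rw [← card_parity]
    apply Finset.card_le_card_of_surjOn (fun p : ℕ × ℕ => if p.1 = 0 then 2 else p.1)
    intro c hcc
    rw [Finset.mem_coe, Finset.mem_filter, Finset.mem_Icc] at hcc
    obtain ⟨p, hp, hK, he⟩ := col_exists hc hm hmn c hcc.1.1 hcc.1.2 hcc.2
    exact ⟨p, by rw [Finset.mem_coe, hC1, Finset.mem_filter]; exact ⟨hp, hK⟩, he⟩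
  have h2 : Nat.log 3 (n / m) + 1 ≤ C2.card := by
    rw [← Finset.card_range (Nat.log 3 (n / m) + 1)]
    apply Finset.card_le_card_of_surjOn (fun p : ℕ × ℕ =>
      if p.1 = 0 ∧ LL n m % 2 = 0 ∧ 10 * tt m p.1 p.2 ≤ 3 * n then p.2 - 1 else p.2)
    intro b hb
    rw [Finset.mem_coe, Finset.mem_range] at hb
    have hb' : m * 3 ^ b ≤ n := by
      have e1 : 3 ^ b ≤ n / m := by
        have e2 := Nat.pow_log_le_self 3 (Nat.div_pos hmn hm).ne'
        exact (Nat.pow_le_pow_right (by norm_num) (by omega)).trans e2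
      rw [Nat.le_div_iff_mul_le (by omega)] at e1
      rw [mul_comm]; exact e1
    obtain ⟨p, hp, hK, he⟩ := row_exists hc hm hmn b hb'
    exact ⟨p, by rw [Finset.mem_coe, hC2, Finset.mem_filter]; exact ⟨hp, hK⟩, he⟩
  unfold oo
  unfold LL at h1
  omega

/-- The possible positions of a proper divisor in `A0`. -/
def Cl (n T W a L u : ℕ) (m : ℕ) : Prop :=
  (T = 2 * u ∧ ∃ a2, a = a2 + 1 ∧ Pd n u W a2 L) ∨
  (T = 3 * u ∧ Pd n u W a L) ∨
  (T = 4 * u ∧ ∃ a4, a = a4 + 2 ∧ Pd n u W a4 L) ∨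
  (T = 6 * u ∧ ∃ a6, a = a6 + 1 ∧ Pd n u W a6 L) ∨
  (T = 5 * u ∧ a = 0 ∧ 5 * n < 6 * T ∧ (∃ m', m = 5 * m') ∧
    ((L % 2 = 1 ∧ 5 * n < 8 * W) ∨ (L % 2 = 0 ∧ 8 * W ≤ 5 * n)))

lemma LW_div {n m q μ : ℕ} (hq : 4 < q) (hq8 : q < 8) (hm : 1 ≤ μ) (he : m = q * μ)
    (hmn : m ≤ n) :
    (n < 8 * (μ * 2 ^ LL n m) ∧ WW n μ = 4 * (μ * 2 ^ LL n m) ∧ LL n μ = LL n m + 2) ∨
    (8 * (μ * 2 ^ LL n m) ≤ n ∧ WW n μ = 8 * (μ * 2 ^ LL n m) ∧ LL n μ = LL n m + 3) := by
  have hm1 : 1 ≤ m := by rw [he]; exact Nat.mul_pos (by omega) hm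
  obtain ⟨w1, w2⟩ := WW_le hm1 hmn
  set L := LL n m with hL
  set V := μ * 2 ^ L with hV
  have hWV : WW n m = q * V := by unfold WW; rw [← hL, hV, he]; ring
  rw [hWV] at w1 w2
  have hqV : 4 * V ≤ q * V := Nat.mul_le_mul_right _ (by omega)
  have hqV' : q * V ≤ 7 * V := Nat.mul_le_mul_right _ (by omega)
  by_cases h : n < 8 * V
  · left
    have hl : LL n μ = L + 2 := by
      unfold LL
      apply Nat.log_eq_of_pow_le_of_lt_pow
      · rw [Nat.le_div_iff_mul_le (by omega)]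
        calc 2 ^ (L + 2) * μ = 4 * V := by rw [hV, pow_add]; ring
          _ ≤ n := by omega
      · rw [Nat.div_lt_iff_lt_mul (by omega)]
        calc n < 8 * V := h
          _ = 2 ^ (L + 2 + 1) * μ := by rw [hV, pow_add, pow_add]; ring
    refine ⟨h, ?_, hl⟩
    unfold WW
    rw [hl, hV, pow_add]; ring
  · right
    push Not at h
    have hl : LL n μ = L + 3 := by
      unfold LL
      apply Nat.log_eq_of_pow_le_of_lt_pow
      · rw [Nat.le_div_iff_mul_le (by omega)]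
        calc 2 ^ (L + 3) * μ = 8 * V := by rw [hV, pow_add]; ring
          _ ≤ n := h
      · rw [Nat.div_lt_iff_lt_mul (by omega)]
        calc n < 16 * V := by omega
          _ = 2 ^ (L + 3 + 1) * μ := by rw [hV, pow_add, pow_add]; ring
    refine ⟨h, ?_, hl⟩
    unfold WW
    rw [hl, hV, pow_add]; ring

lemma coprime_of_tt {m : ℕ} (h : Nat.Coprime 6 m) : m ≠ 0 := by
  rintro rfl; norm_num at h

lemma classify {n m a b u : ℕ} (hc : Nat.Coprime 6 m) (hm : 1 ≤ m)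
    (ht : tt m a b ∈ A0 n) (hu : u ∈ A0 n) (hd : u ∣ tt m a b) (hne : u ≠ tt m a b) :
    Cl n (tt m a b) (WW n m) a (LL n m) u m := by
  have hu0 := A0_sub n hu
  rw [Finset.mem_Icc] at hu0
  obtain ⟨μ, α, β, hμ, rfl⟩ := tt_exists (by omega : u ≠ 0)
  have hμ1 : 1 ≤ μ := Nat.pos_of_ne_zero (coprime_of_tt hμ)
  rw [mem_A0 hc hm] at ht
  rw [mem_A0 hμ hμ1] at hu
  obtain ⟨q, hq⟩ := hd
  rw [mul_comm] at hq
  have hmn : m ≤ n := by
    have : m ≤ tt m a b := Nat.le_mul_of_pos_right _ (by positivity)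
    omega
  have hq2 : 2 ≤ q := by
    rcases Nat.lt_or_ge q 2 with h | h
    · interval_cases q
      · have := tt_pos hm a b; omega
      · rw [one_mul] at hq; exact absurd hq.symm hne
    · exact h
  have hq7 : q ≤ 7 := by
    have h1 := hu.2.lt
    by_contra hcon
    push Not at hcon
    have h2 : 8 * tt μ α β ≤ q * tt μ α β := Nat.mul_le_mul_right _ hcon
    omega
  have e2 : tt 1 1 0 = 2 := by unfold tt; norm_num
  have e3 : tt 1 0 1 = 3 := by unfold tt; norm_num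
  have e4 : tt 1 2 0 = 4 := by unfold tt; norm_num
  have e6 : tt 1 1 1 = 6 := by unfold tt; norm_num
  have e5 : tt 5 0 0 = 5 := by unfold tt; norm_num
  have e7 : tt 7 0 0 = 7 := by unfold tt; norm_num
  obtain ⟨w1, w2⟩ := WW_le hm hmn
  interval_cases q
  · rw [← e2] at hq
    obtain ⟨g1, g2, _⟩ := tt_mul hc hμ (by norm_num) hq
    rw [e2] at hq
    rw [one_mul] at g1
    subst g1
    exact Or.inl ⟨hq, α, by omega, hu.2⟩
  · rw [← e3] at hq
    obtain ⟨g1, g2, _⟩ := tt_mul hc hμ (by norm_num) hq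
    rw [e3] at hq
    rw [one_mul] at g1
    rw [zero_add] at g2
    subst g1
    subst g2
    exact Or.inr (Or.inl ⟨hq, hu.2⟩)
  · rw [← e4] at hq
    obtain ⟨g1, g2, _⟩ := tt_mul hc hμ (by norm_num) hq
    rw [e4] at hq
    rw [one_mul] at g1
    subst g1
    exact Or.inr (Or.inr (Or.inl ⟨hq, α, by omega, hu.2⟩))
  · rw [← e5] at hq
    obtain ⟨g1, g2, _⟩ := tt_mul hc hμ (by norm_num) hq
    rw [e5] at hq
    rw [zero_add] at g2
    subst g2
    have hWV : WW n m = 5 * (μ * 2 ^ LL n m) := by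
      unfold WW
      conv_lhs => rw [g1]
      rw [g1]; ring
    have hdiv := LW_div (n := n) (by norm_num) (by norm_num) hμ1 g1 hmn
    obtain ⟨r1, r2, r3⟩ := pd5 ht.1 ht.2 hq hWV w1 w2 hdiv hu.2
    exact Or.inr (Or.inr (Or.inr (Or.inr ⟨hq, r1, r2, ⟨μ, g1⟩, r3⟩)))
  · rw [← e6] at hq
    obtain ⟨g1, g2, _⟩ := tt_mul hc hμ (by norm_num) hq
    rw [e6] at hq
    rw [one_mul] at g1
    subst g1
    exact Or.inr (Or.inr (Or.inr (Or.inl ⟨hq, α, by omega, hu.2⟩)))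
  · rw [← e7] at hq
    obtain ⟨g1, g2, _⟩ := tt_mul hc hμ (by norm_num) hq
    rw [e7] at hq
    rw [zero_add] at g2
    subst g2
    have hWV : WW n m = 7 * (μ * 2 ^ LL n m) := by
      unfold WW
      conv_lhs => rw [g1]
      rw [g1]; ring
    have hdiv := LW_div (n := n) (by norm_num) (by norm_num) hμ1 g1 hmn
    exact (pd7 ht.1 ht.2 hq hWV w1 w2 hdiv hu.2).elim

/-- The position of the exceptional elements. -/
def ex (n m : ℕ) : ℕ := tt (5 * m) 0 (Nat.log 3 (n / m) - 1)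

open Classical in
/-- the exceptional elements, which are removed -/
noncomputable def RR2 (n : ℕ) : Finset ℕ := ((rgh 6 n).filter (fun m => Exc (n / m))).image (ex n)

/-- the conflict of `3` and `5` happens only at removed elements -/
lemma conflict {n m b : ℕ} (hc : Nat.Coprime 6 m) (hm : 1 ≤ m) (hT : tt m 0 b ≤ n)
    (h1 : 5 * n < 6 * tt m 0 b) (h5 : ∃ m', m = 5 * m') (hL : LL n m % 2 = 1)
    (hNA : 5 * n < 8 * WW n m)
    (h3 : 3 ∣ tt m 0 b) : tt m 0 b ∈ RR2 n := by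
  classical
  obtain ⟨μ, rfl⟩ := h5
  have hμ : Nat.Coprime 6 μ := Nat.Coprime.coprime_mul_left_right hc
  have hμ1 : 1 ≤ μ := Nat.pos_of_ne_zero (coprime_of_tt hμ)
  have hmn : 5 * μ ≤ n := by
    have : 5 * μ ≤ tt (5 * μ) 0 b := Nat.le_mul_of_pos_right _ (by positivity)
    omega
  have hTf : tt (5 * μ) 0 b = 5 * (μ * 3 ^ b) := by unfold tt; ring
  -- `b ≥ 1`
  obtain ⟨b', rfl⟩ : ∃ b', b = b' + 1 := by
    rcases Nat.eq_zero_or_pos b with h | h
    · exfalso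
      rw [h] at h3
      have e : tt (5 * μ) 0 0 = 5 * μ := by unfold tt; ring
      rw [e] at h3
      have : Nat.Coprime 3 (5 * μ) := Nat.Coprime.coprime_dvd_left (by norm_num) hc
      exact absurd (Nat.eq_one_of_dvd_coprimes this dvd_rfl h3) (by norm_num)
    · exact ⟨b - 1, by omega⟩
  have hdiv := LW_div (n := n) (q := 5) (by norm_num) (by norm_num) hμ1 rfl hmn
  obtain ⟨w1, w2⟩ := WW_le hm hmn
  have hWV : WW n (5 * μ) = 5 * (μ * 2 ^ LL n (5 * μ)) := by unfold WW; ring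
  rw [hTf] at h1 hT
  have hx1 : 5 * 3 ^ (b' + 1) ≤ n / μ := by
    rw [Nat.le_div_iff_mul_le (by omega)]
    calc 5 * 3 ^ (b' + 1) * μ = 5 * (μ * 3 ^ (b' + 1)) := by ring
      _ ≤ n := hT
  have hx2 : n / μ < 6 * 3 ^ (b' + 1) := by
    rw [Nat.div_lt_iff_lt_mul (by omega)]
    calc n < 6 * (μ * 3 ^ (b' + 1)) := by omega
      _ = 6 * 3 ^ (b' + 1) * μ := by ring
  have hlog3 : Nat.log 3 (n / μ) = b' + 2 := by
    apply Nat.log_eq_of_pow_le_of_lt_pow
    · rw [pow_succ]; omega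
    · rw [pow_succ, pow_succ]; omega
  -- the logarithm in base `2`
  have hlog2 : LL n μ = LL n (5 * μ) + 2 := by
    rcases hdiv with h | h
    · exact h.2.2
    · omega
  have hExc : Exc (n / μ) := by
    refine ⟨?_, ?_, ?_, ?_⟩
    · change Odd (LL n μ)
      rw [hlog2, Nat.odd_iff]; omega
    · change 5 * 2 ^ LL n μ ≤ 4 * (n / μ)
      rw [hlog2, pow_add]
      have : 5 * 2 ^ LL n (5 * μ) ≤ n / μ := by
        rw [Nat.le_div_iff_mul_le (by omega)]
        calc 5 * 2 ^ LL n (5 * μ) * μ = WW n (5 * μ) := by unfold WW; ring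
          _ ≤ n := w1
      omega
    · rw [hlog3, pow_succ]; omega
    · rw [hlog3, pow_succ]; omega
  unfold RR2
  rw [Finset.mem_image]
  refine ⟨μ, ?_, ?_⟩
  · rw [Finset.mem_filter, mem_rgh]
    exact ⟨⟨⟨hμ1, by omega⟩, hμ⟩, hExc⟩
  · unfold ex
    rw [hlog3]
    rfl

/-- the extremal set -/
noncomputable def AA (n : ℕ) : Finset ℕ := A0 n \ RR2 n

lemma AA_free (n : ℕ) : KMultipleFree 2 (AA n) := by
  classical
  rw [kmf_iff]
  intro t ht
  by_contra hcon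
  push Not at hcon
  have h1 : 1 < ((AA n).filter (fun b => b ∣ t ∧ b ≠ t)).card := by omega
  rw [Finset.one_lt_card_iff] at h1
  obtain ⟨u, v, hu, hv, huv⟩ := h1
  rw [Finset.mem_filter] at hu hv
  obtain ⟨hu, hud, hut⟩ := hu
  obtain ⟨hv, hvd, hvt⟩ := hv
  unfold AA at ht hu hv
  rw [Finset.mem_sdiff] at ht hu hv
  have ht0 := A0_sub n ht.1
  rw [Finset.mem_Icc] at ht0
  obtain ⟨m, a, b, hc, rfl⟩ := tt_exists (by omega : t ≠ 0)
  have hm : 1 ≤ m := Nat.pos_of_ne_zero (coprime_of_tt hc)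
  have cu := classify hc hm ht.1 hu.1 hud hut
  have cv := classify hc hm ht.1 hv.1 hvd hvt
  have hP := (mem_A0 hc hm).mp ht.1
  have hRt := ht.2
  set T := tt m a b with hT
  have h35 : ∀ w z : ℕ, T = 3 * w → Pd n w (WW n m) a (LL n m) → T = 5 * z → a = 0 →
      5 * n < 6 * T → (∃ m', m = 5 * m') →
      ((LL n m % 2 = 1 ∧ 5 * n < 8 * WW n m) ∨ (LL n m % 2 = 0 ∧ 8 * WW n m ≤ 5 * n)) →
      False := by
    intro w z e3 hw _ ha h6 hm' hcase
    rcases hcase with ⟨c1, c2⟩ | ⟨c1, c2⟩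
    · apply hRt
      rw [hT, ha]
      rw [hT, ha] at hP h6 e3
      exact conflict hc hm hP.1 h6 hm' c1 c2 ⟨w, e3⟩
    · exact pd35 hP.1 hw e3 ha h6 c1 c2
  unfold Cl at cu cv
  rcases cu with ⟨e1, a1, ha1, p1⟩ | ⟨e1, p1⟩ | ⟨e1, a1, ha1, p1⟩ | ⟨e1, a1, ha1, p1⟩ |
    ⟨e1, ha1, p1, q1, r1⟩ <;>
  rcases cv with ⟨e2, a2, ha2, p2⟩ | ⟨e2, p2⟩ | ⟨e2, a2, ha2, p2⟩ | ⟨e2, a2, ha2, p2⟩ |
    ⟨e2, ha2, p2, q2, r2⟩
  · omega
  · exact pd23 hP.1 hP.2 e1 e2 ha1 p1 p2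
  · exact pd24 hP.1 hP.2 e1 e2 ha1 ha2 p1 p2
  · obtain rfl : a1 = a2 := by omega
    exact pd26 hP.1 hP.2 e1 e2 ha1 p1 p2
  · omega
  · exact pd23 hP.1 hP.2 e2 e1 ha2 p2 p1
  · omega
  · exact pd34 hP.1 hP.2 e1 e2 ha2 p1 p2
  · exact pd36 hP.1 hP.2 e1 e2 ha2 p1 p2
  · exact h35 _ _ e1 p1 e2 ha2 p2 q2 r2
  · exact pd24 hP.1 hP.2 e2 e1 ha2 ha1 p2 p1
  · exact pd34 hP.1 hP.2 e2 e1 ha1 p2 p1
  · omega
  · exact pd46 hP.1 hP.2 e1 e2 ha1 ha2 p1 p2
  · omega
  · obtain rfl : a1 = a2 := by omega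
    exact pd26 hP.1 hP.2 e2 e1 ha2 p2 p1
  · exact pd36 hP.1 hP.2 e2 e1 ha1 p2 p1
  · exact pd46 hP.1 hP.2 e2 e1 ha2 ha1 p2 p1
  · omega
  · omega
  · omega
  · exact h35 _ _ e2 p2 e1 ha1 p1 q1 r1
  · omega
  · omega
  · omega

/-- Lower bound for `g_2(n)`. -/
theorem le_gk2 (n : ℕ) : ∑ m ∈ rgh 6 n, hh (n / m) ≤ gk 2 n := by
  classical
  have h1 : (AA n).card ≤ gk 2 n := by
    rw [gk_eq_opt]
    exact le_opt ((Finset.sdiff_subset).trans (A0_sub n)) (AA_free n)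
  refine le_trans ?_ h1
  set D := (rgh 6 n).filter (fun m => Exc (n / m)) with hD
  have h2 : (RR2 n).card ≤ D.card := by unfold RR2; exact Finset.card_image_le
  have h3 : (A0 n).card ≤ (AA n).card + (RR2 n).card := by
    unfold AA
    exact Finset.card_le_card_sdiff_add_card
  have h4 : ∑ m ∈ rgh 6 n, oo (n / m) ≤ (A0 n).card := by
    rw [card_eq_cls (A0_sub n)]
    refine Finset.sum_le_sum fun m hm => ?_
    rw [mem_rgh] at hm
    exact oo_le_cls hm.2 hm.1.1 hm.1.2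
  have h5 : ∑ m ∈ rgh 6 n, hh (n / m) + D.card = ∑ m ∈ rgh 6 n, oo (n / m) := by
    have h6 : D.card = ∑ m ∈ rgh 6 n, (if Exc (n / m) then 1 else 0) := by
      rw [← Finset.sum_filter, Finset.sum_const, smul_eq_mul, mul_one]
    rw [h6, ← Finset.sum_add_distrib]
    refine Finset.sum_congr rfl fun m _ => ?_
    rw [hh_eq]
    have := oo_pos (n / m)
    split_ifs <;> omega
  omega

/-- The exact value of `g_2(n)`. -/
theorem gk2_eq (n : ℕ) : gk 2 n = ∑ m ∈ rgh 6 n, hh (n / m) :=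
  le_antisymm (gk2_le n) (le_gk2 n)

end Pool.Agent.H96.KMF
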