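import Pool.Agent.H96.KMF.K2.Asym2

/-!
# The case `k = 2`: numerical enclosure of the constant
-/

set_option autoImplicit false

namespace Pool.Agent.H96.KMF

open Finset Filter Topology

/-- a finite set containing all exceptional numbers below `6561` -/
def XS : Finset ℕ := {15} ∪ Finset.Ico 45 54 ∪ Finset.Ico 160 162 ∪ Finset.Ico 3645 4096

/-- some exceptional numbers -/
def XL : Finset ℕ := {15} ∪ Finset.Ico 45 54 ∪ Finset.Ico 160 162

lemma exc_XL : ∀ x ∈ XL, Exc x := by decide

lemma exc_small (x : ℕ) (hx : x < 6561) (h : Exc x) : x ∈ XS := by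
  obtain ⟨h1, h2, h3, h4⟩ := h
  have hx0 : x ≠ 0 := by rintro rfl; simp at h1
  have a1 := Nat.pow_log_le_self 2 hx0
  have a2 := Nat.lt_pow_succ_log_self (b := 2) (by norm_num) x
  have a3 := Nat.pow_log_le_self 3 hx0
  have a4 := Nat.lt_pow_succ_log_self (b := 3) (by norm_num) x
  generalize Nat.log 2 x = s at *
  generalize Nat.log 3 x = B at *
  have hs : s < 13 := by
    by_contra hc
    push Not at hc
    have := Nat.pow_le_pow_right (n := 2) (by norm_num) hc
    omega
  have hB : B < 8 := by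
    by_contra hc
    push Not at hc
    have := Nat.pow_le_pow_right (n := 3) (by norm_num) hc
    omega
  simp only [XS, Finset.mem_union, Finset.mem_singleton, Finset.mem_Ico]
  interval_cases s <;> first | (exfalso; revert h1; decide) | (interval_cases B <;> omega)

lemma sum_tel (a b : ℕ) (ha : 1 ≤ a) (hab : a ≤ b) :
    ∑ j ∈ Finset.Ico a b, (1 : ℝ) / (j * (j + 1)) = 1 / a - 1 / b := by
  induction b, hab using Nat.le_induction with
  | base => simp
  | succ b hb ih =>
    rw [Finset.sum_Ico_succ_top hb, ih]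
    have ha' : (0 : ℝ) < a := by exact_mod_cast ha
    have hb' : (0 : ℝ) < b := by
      have : 1 ≤ b := ha.trans hb
      exact_mod_cast this
    push_cast
    field_simp
    ring

lemma tsum_ee_lower : 1 / 15 - 1 / 16 + (1 / 45 - 1 / 54) + (1 / 160 - 1 / 162) ≤
    ∑' j : ℕ, (ee j : ℝ) / (j * (j + 1)) := by
  have h := summable_ee.sum_le_tsum XL (fun j _ => by positivity)
  refine le_trans ?_ h
  have h1 : ∑ j ∈ XL, (ee j : ℝ) / (j * (j + 1)) = ∑ j ∈ XL, (1 : ℝ) / (j * (j + 1)) := by
    apply Finset.sum_congr rfl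
    intro j hj
    have : ee j = 1 := by unfold ee; rw [if_pos (exc_XL j hj)]
    rw [this]; norm_num
  rw [h1]
  have e1 := sum_tel 15 16 (by norm_num) (by norm_num)
  have e2 := sum_tel 45 54 (by norm_num) (by norm_num)
  have e3 := sum_tel 160 162 (by norm_num) (by norm_num)
  have h2 : XL = (Finset.Ico 15 16 ∪ Finset.Ico 45 54) ∪ Finset.Ico 160 162 := by decide
  rw [h2, Finset.sum_union, Finset.sum_union, e1, e2, e3]
  · norm_num
  · decide
  · decide

lemma tsum_ee_upper : ∑' j : ℕ, (ee j : ℝ) / (j * (j + 1)) ≤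
    1 / 15 - 1 / 16 + (1 / 45 - 1 / 54) + (1 / 160 - 1 / 162) + (1 / 3645 - 1 / 4096) +
      1 / 6561 := by
  apply summable_ee.tsum_le_of_sum_range_le
  intro n
  have h1 : ∑ j ∈ Finset.range n, (ee j : ℝ) / (j * (j + 1)) ≤
      ∑ j ∈ XS ∪ Finset.Ico 6561 (n + 6561), (1 : ℝ) / (j * (j + 1)) := by
    have e1 : ∑ j ∈ Finset.range n, (ee j : ℝ) / (j * (j + 1)) =
        ∑ j ∈ (Finset.range n).filter Exc, (1 : ℝ) / (j * (j + 1)) := by
      rw [Finset.sum_filter]
      apply Finset.sum_congr rfl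
      intro j _
      unfold ee
      split_ifs <;> simp
    rw [e1]
    apply Finset.sum_le_sum_of_subset_of_nonneg
    · intro j hj
      rw [Finset.mem_filter, Finset.mem_range] at hj
      rw [Finset.mem_union, Finset.mem_Ico]
      by_cases hj' : j < 6561
      · left; exact exc_small j hj' hj.2
      · right; omega
    · intro j _ _; positivity
  refine h1.trans ?_
  have h2 : XS = ((Finset.Ico 15 16 ∪ Finset.Ico 45 54) ∪ Finset.Ico 160 162) ∪
      Finset.Ico 3645 4096 := by
    unfold XS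
    congr 3
  have e1 := sum_tel 15 16 (by norm_num) (by norm_num)
  have e2 := sum_tel 45 54 (by norm_num) (by norm_num)
  have e3 := sum_tel 160 162 (by norm_num) (by norm_num)
  have e4 := sum_tel 3645 4096 (by norm_num) (by norm_num)
  have e5 := sum_tel 6561 (n + 6561) (by norm_num) (by omega)
  have hd : ∀ a b c d : ℕ, b ≤ c → Disjoint (Finset.Ico a b) (Finset.Ico c d) := by
    intro a b c d h
    rw [Finset.disjoint_left]
    intro x hx hx'
    rw [Finset.mem_Ico] at hx hx'
    omega
  rw [h2, Finset.sum_union, Finset.sum_union, Finset.sum_union, Finset.sum_union, e1, e2, e3, e4, e5]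
  · have : (0 : ℝ) ≤ 1 / ((n + 6561 : ℕ) : ℝ) := by positivity
    generalize (1 : ℝ) / ((n + 6561 : ℕ) : ℝ) = q at *
    norm_num
    linarith
  · exact hd _ _ _ _ (by norm_num)
  · rw [Finset.disjoint_union_left]
    exact ⟨hd _ _ _ _ (by norm_num), hd _ _ _ _ (by norm_num)⟩
  · rw [Finset.disjoint_union_left, Finset.disjoint_union_left]
    exact ⟨⟨hd _ _ _ _ (by norm_num), hd _ _ _ _ (by norm_num)⟩, hd _ _ _ _ (by norm_num)⟩
  · rw [Finset.disjoint_union_left, Finset.disjoint_union_left, Finset.disjoint_union_left]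
    exact ⟨⟨⟨hd _ _ _ _ (by norm_num), hd _ _ _ _ (by norm_num)⟩, hd _ _ _ _ (by norm_num)⟩,
      hd _ _ _ _ (by norm_num)⟩

theorem c2_bounds : 0.7195 < c2 ∧ c2 < 0.7196 := by
  have h1 := tsum_ee_lower
  have h2 := tsum_ee_upper
  unfold c2
  constructor
  · norm_num at h2 ⊢
    linarith
  · norm_num at h1 ⊢
    linarith

end Pool.Agent.H96.KMF
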