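import Pool.Agent.H96.KMF.K2.Defs

/-!
# The case `k = 2`: the predicate defining the extremal set, and the case analysis
-/

set_option autoImplicit false

namespace Pool.Agent.H96.KMF

/-- The conditions on an element `T = m 2^a 3^b`, in terms of `n`, of `L = ⌊log₂ (n / m)⌋` and of
`W = m 2^L`. -/
def Pd (n T W a L : ℕ) : Prop :=
  if 8 * W ≤ 5 * n then
    if a % 2 = L % 2 then
      if L % 2 = 0 then
        if a = 0 then n < 3 * T ∨ (14 * T ≤ 3 * n ∧ 5 * n < 24 * T)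
        else if a = 2 then 6 * T ≤ 5 * n ∧ 2 * n < 7 * T
        else 6 * T ≤ 5 * n ∧ 5 * n < 18 * T
      else
        if a = 1 then n < 3 * T else 6 * T ≤ 5 * n ∧ 5 * n < 18 * T
    else
      if L % 2 = 0 then
        if a = 1 then 3 * T ≤ 2 * n ∧ n < 7 * T
        else if a = 3 then 7 * T ≤ 4 * n ∧ 5 * n < 36 * T
        else 9 * T ≤ 5 * n ∧ 5 * n < 36 * T
      else
        if a = 0 then n < 6 * T
        else if a = 2 then 3 * T ≤ 2 * n ∧ 5 * n < 36 * T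
        else 9 * T ≤ 5 * n ∧ 5 * n < 36 * T
  else
    if a % 2 = L % 2 then
      n < 3 * T ∨ (4 * n < 5 * W ∧ L % 2 = 0 ∧ a = 0 ∧ 10 * T ≤ 3 * n ∧ n < 4 * T)
    else
      if a = 0 then n < 6 * T
      else if 4 * n < 5 * W ∧ L % 2 = 0 ∧ a = 1 then 3 * T ≤ 2 * n ∧ n < 5 * T
      else 3 * T ≤ 2 * n ∧ n < 6 * T

instance (n T W a L : ℕ) : Decidable (Pd n T W a L) := by unfold Pd; infer_instance

lemma Pd.lt {n T W a L : ℕ} (h : Pd n T W a L) : 5 * n < 36 * T := by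
  unfold Pd at h
  split_ifs at h <;> omega

section

variable {n T W a L : ℕ}

set_option maxHeartbeats 2000000 in
lemma pd23 {T2 T3 a2 : ℕ} (hT : T ≤ n) (h : Pd n T W a L) (e2 : T = 2 * T2) (e3 : T = 3 * T3)
    (ha : a = a2 + 1) (h2 : Pd n T2 W a2 L) (h3 : Pd n T3 W a L) : False := by
  unfold Pd at *
  split_ifs at h h2 h3 <;> omega

set_option maxHeartbeats 2000000 in
lemma pd24 {T2 T4 a2 a4 : ℕ} (hT : T ≤ n) (h : Pd n T W a L) (e2 : T = 2 * T2) (e3 : T = 4 * T4)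
    (ha : a = a2 + 1) (ha' : a = a4 + 2) (h2 : Pd n T2 W a2 L) (h3 : Pd n T4 W a4 L) :
    False := by
  unfold Pd at *
  split_ifs at h h2 h3 <;> omega

set_option maxHeartbeats 2000000 in
lemma pd26 {T2 T6 a2 : ℕ} (hT : T ≤ n) (h : Pd n T W a L) (e2 : T = 2 * T2) (e3 : T = 6 * T6)
    (ha : a = a2 + 1) (h2 : Pd n T2 W a2 L) (h3 : Pd n T6 W a2 L) : False := by
  unfold Pd at *
  split_ifs at h h2 h3 <;> omega

set_option maxHeartbeats 2000000 in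
lemma pd34 {T3 T4 a4 : ℕ} (hT : T ≤ n) (h : Pd n T W a L) (e2 : T = 3 * T3) (e3 : T = 4 * T4)
    (ha' : a = a4 + 2) (h2 : Pd n T3 W a L) (h3 : Pd n T4 W a4 L) : False := by
  unfold Pd at *
  split_ifs at h h2 h3 <;> omega

set_option maxHeartbeats 2000000 in
lemma pd36 {T3 T6 a6 : ℕ} (hT : T ≤ n) (h : Pd n T W a L) (e2 : T = 3 * T3) (e3 : T = 6 * T6)
    (ha : a = a6 + 1) (h2 : Pd n T3 W a L) (h3 : Pd n T6 W a6 L) : False := by
  unfold Pd at *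
  split_ifs at h h2 h3 <;> omega

set_option maxHeartbeats 2000000 in
lemma pd46 {T4 T6 a4 a6 : ℕ} (hT : T ≤ n) (h : Pd n T W a L) (e2 : T = 4 * T4) (e3 : T = 6 * T6)
    (ha : a = a4 + 2) (ha' : a = a6 + 1) (h2 : Pd n T4 W a4 L) (h3 : Pd n T6 W a6 L) :
    False := by
  unfold Pd at *
  split_ifs at h h2 h3 <;> omega

set_option maxHeartbeats 4000000 in
/-- Division by `5`: `W = 5 V`, and the new `W' = 4 V` or `8 V`. -/
lemma pd5 {T5 V W' L' : ℕ} (hT : T ≤ n) (h : Pd n T W a L) (e : T = 5 * T5) (hW : W = 5 * V)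
    (hW1 : W ≤ n) (hW2 : n < 2 * W)
    (h' : (n < 8 * V ∧ W' = 4 * V ∧ L' = L + 2) ∨ (8 * V ≤ n ∧ W' = 8 * V ∧ L' = L + 3))
    (h5 : Pd n T5 W' a L') :
    a = 0 ∧ 5 * n < 6 * T ∧ ((L % 2 = 1 ∧ 5 * n < 8 * W) ∨ (L % 2 = 0 ∧ 8 * W ≤ 5 * n)) := by
  unfold Pd at *
  rcases h' with ⟨a1, a2, a3⟩ | ⟨a1, a2, a3⟩
  · split_ifs at h h5 <;> omega
  · split_ifs at h h5 <;> omega

set_option maxHeartbeats 4000000 in
/-- Division by `7`. -/
lemma pd7 {T7 V W' L' : ℕ} (hT : T ≤ n) (h : Pd n T W a L) (e : T = 7 * T7) (hW : W = 7 * V)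
    (hW1 : W ≤ n) (hW2 : n < 2 * W)
    (h' : (n < 8 * V ∧ W' = 4 * V ∧ L' = L + 2) ∨ (8 * V ≤ n ∧ W' = 8 * V ∧ L' = L + 3))
    (h7 : Pd n T7 W' a L') : False := by
  unfold Pd at *
  rcases h' with ⟨a1, a2, a3⟩ | ⟨a1, a2, a3⟩
  · split_ifs at h h7 <;> omega
  · split_ifs at h h7 <;> omega

/-- the remaining pair `3, 5`. -/
lemma pd35 {T3 : ℕ} (hT : T ≤ n) (h3 : Pd n T3 W a L) (e : T = 3 * T3) (ha : a = 0)
    (h1 : 5 * n < 6 * T) (hL : L % 2 = 0) (hW : 8 * W ≤ 5 * n) : False := by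
  unfold Pd at *
  split_ifs at h3 <;> omega

end

end Pool.Agent.H96.KMF
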